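import Pool.Agent.W438.Vol.Polar

set_option autoImplicit false

open MeasureTheory ProbabilityTheory Set Filter Topology

namespace Pool.Agent.W438.Vol

lemma gamma72 : Real.Gamma (7 / 2) = 15 / 8 * Real.sqrt Real.pi := by
  rw [show (7 / 2 : ℝ) = 5 / 2 + 1 by norm_num, Real.Gamma_add_one (by norm_num),
    show (5 / 2 : ℝ) = 3 / 2 + 1 by norm_num, Real.Gamma_add_one (by norm_num),
    show (3 / 2 : ℝ) = 1 / 2 + 1 by norm_num, Real.Gamma_add_one (by norm_num),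
    Real.Gamma_one_half_eq]
  ring

lemma m6_val : ∫⁻ ρ in Ioi (0 : ℝ), ENNReal.ofReal (ρ ^ 6 * Real.exp (-(ρ ^ 2 / 2))) =
    ENNReal.ofReal (15 * Real.sqrt Real.pi / Real.sqrt 2) := by
  have h := integral_rpow_mul_exp_neg_mul_rpow (p := 2) (q := 6) (b := 1 / 2) (by norm_num)
    (by norm_num) (by norm_num)
  have e1 : ∫ x in Ioi (0 : ℝ), x ^ (6 : ℝ) * Real.exp (-(1 / 2) * x ^ (2 : ℝ)) =
      ∫ ρ in Ioi (0 : ℝ), ρ ^ 6 * Real.exp (-(ρ ^ 2 / 2)) := by
    refine setIntegral_congr_fun measurableSet_Ioi fun x _ => ?_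
    have a1 : x ^ (6 : ℝ) = x ^ 6 := by
      rw [show (6 : ℝ) = ((6 : ℕ) : ℝ) by norm_num, Real.rpow_natCast]
    have a2 : x ^ (2 : ℝ) = x ^ 2 := by
      rw [show (2 : ℝ) = ((2 : ℕ) : ℝ) by norm_num, Real.rpow_natCast]
    simp only [a1, a2]
    congr 2
    ring
  have hval : ∫ ρ in Ioi (0 : ℝ), ρ ^ 6 * Real.exp (-(ρ ^ 2 / 2)) =
      15 * Real.sqrt Real.pi / Real.sqrt 2 := by
    rw [← e1, h, show ((6 : ℝ) + 1) / 2 = 7 / 2 by norm_num,
      show -((6 : ℝ) + 1) / 2 = -(7 / 2) by norm_num, gamma72]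
    have h2 : (1 / 2 : ℝ) ^ (-(7 / 2) : ℝ) = 8 * Real.sqrt 2 := by
      rw [one_div, Real.inv_rpow (by norm_num), Real.rpow_neg (by norm_num), inv_inv,
        show (7 / 2 : ℝ) = 3 + 1 / 2 by norm_num, Real.rpow_add (by norm_num),
        ← Real.sqrt_eq_rpow, show (3 : ℝ) = ((3 : ℕ) : ℝ) by norm_num, Real.rpow_natCast]
      norm_num
    rw [h2]
    have h3 : Real.sqrt 2 * Real.sqrt 2 = 2 := Real.mul_self_sqrt (by norm_num)
    have h4 : Real.sqrt 2 ≠ 0 := by positivity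
    field_simp
    nlinarith [h3]
  have hpos : 0 < 15 * Real.sqrt Real.pi / Real.sqrt 2 := by positivity
  have hint : IntegrableOn (fun ρ : ℝ => ρ ^ 6 * Real.exp (-(ρ ^ 2 / 2))) (Ioi 0) := by
    by_contra hc
    have := integral_undef hc
    rw [hval] at this
    linarith
  rw [← hval, ofReal_integral_eq_lintegral_ofReal hint]
  rw [Filter.EventuallyLE, ae_restrict_iff' measurableSet_Ioi]
  refine Eventually.of_forall fun x hx => ?_
  have hx' : (0 : ℝ) < x := hx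
  simp only [Pi.zero_apply]
  positivity

/-- **the hyperbolic volume of `P⁶`** -/
theorem vol_P6 : hypMeas P6 = ENNReal.ofReal (Real.pi ^ 3 / 15) := by
  have h := muM_polar
  rw [muM_CP, MM_val, m6_val] at h
  have h5 : (51840 : ENNReal) = ENNReal.ofReal 51840 := by
    rw [show (51840 : ℝ) = ((51840 : ℕ) : ℝ) by norm_num, ENNReal.ofReal_natCast]; norm_num
  rw [h5, ← ENNReal.ofReal_mul (by norm_num)] at h
  have hpos : 0 < 15 * Real.sqrt Real.pi / Real.sqrt 2 := by positivity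
  have hval : (51840 : ℝ) * (Real.sqrt (2 * Real.pi) ^ 7 / 829440) =
      (15 * Real.sqrt Real.pi / Real.sqrt 2) * (Real.pi ^ 3 / 15) := by
    rw [Real.sqrt_mul (by norm_num)]
    have h2 : Real.sqrt 2 ^ 2 = 2 := Real.sq_sqrt (by norm_num)
    have hp : Real.sqrt Real.pi ^ 2 = Real.pi := Real.sq_sqrt Real.pi_pos.le
    have h20 : Real.sqrt 2 ≠ 0 := by positivity
    have e1 : (Real.sqrt 2 * Real.sqrt Real.pi) ^ 7 =
        (Real.sqrt 2 ^ 2) ^ 3 * (Real.sqrt Real.pi ^ 2) ^ 3 * (Real.sqrt 2 * Real.sqrt Real.pi) := by ring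
    rw [e1, h2, hp]
    field_simp
    nlinarith [h2, Real.sqrt_nonneg 2]
  rw [hval, ENNReal.ofReal_mul hpos.le] at h
  have h7 : ENNReal.ofReal (15 * Real.sqrt Real.pi / Real.sqrt 2) ≠ 0 := by simpa using hpos
  exact ((ENNReal.mul_right_inj h7 ENNReal.ofReal_ne_top).1 h).symm

end Pool.Agent.W438.Vol

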