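import Pool.Agent.W438.Vol.Dens

set_option autoImplicit false

open MeasureTheory ProbabilityTheory Set Filter Topology

namespace Pool.Agent.W438.Vol

/-- Laplace transforms are holomorphic -/
theorem laplace_diff {Ω : Type*} [MeasurableSpace Ω] (μ : Measure Ω) (w r : Ω → ℝ)
    (hw : Measurable w) (hr : Measurable r) (hr0 : ∀ᵐ x ∂μ, 0 ≤ r x)
    (hint : ∀ ε : ℝ, 0 < ε → Integrable (fun x => w x * Real.exp (-(ε * r x))) μ) :
    DifferentiableOn ℂ (fun p : ℂ => ∫ x, (w x : ℂ) * Complex.exp (-(p * r x)) ∂μ)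
      {p | 0 < p.re} := by
  intro p0 hp0
  have hp0' : 0 < p0.re := hp0
  set ε : ℝ := p0.re / 2 with hε
  have hε0 : 0 < ε := by positivity
  have hmeas : ∀ p : ℂ, Measurable (fun x => (w x : ℂ) * Complex.exp (-(p * r x))) := by
    intro p; fun_prop
  have hnorm : ∀ (p : ℂ) (x : Ω), ‖(w x : ℂ) * Complex.exp (-(p * r x))‖ =
      |w x| * Real.exp (-(p.re * r x)) := by
    intro p x
    rw [norm_mul, Complex.norm_real, Complex.norm_exp, Real.norm_eq_abs]
    simp
  have key := hasDerivAt_integral_of_dominated_loc_of_deriv_le (μ := μ) (𝕜 := ℂ)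
    (F := fun (p : ℂ) x => (w x : ℂ) * Complex.exp (-(p * r x)))
    (F' := fun (p : ℂ) x => (w x : ℂ) * (Complex.exp (-(p * r x)) * (-(r x : ℂ))))
    (x₀ := p0) (s := Metric.ball p0 ε)
    (bound := fun x => (2 / ε) * |w x * Real.exp (-((ε / 2) * r x))|)
    (Metric.ball_mem_nhds p0 hε0)
    (Eventually.of_forall fun p => (hmeas p).aestronglyMeasurable) ?_ ?_ ?_ ?_ ?_
  · exact key.2.differentiableAt.differentiableWithinAt
  · -- integrable at p0
    have := hint p0.re hp0'
    refine Integrable.mono' this.norm (hmeas p0).aestronglyMeasurable ?_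
    refine Eventually.of_forall fun x => ?_
    rw [hnorm, norm_mul, Real.norm_eq_abs, Real.norm_eq_abs, abs_of_pos (Real.exp_pos _)]
  · apply Measurable.aestronglyMeasurable
    fun_prop
  · filter_upwards [hr0] with x hx p hp
    have hre : ε < p.re := by
      have h1 : |(p - p0).re| ≤ ‖p - p0‖ := Complex.abs_re_le_norm _
      have h2 : ‖p - p0‖ < ε := by simpa [dist_eq_norm] using hp
      have h3 := (abs_lt.1 (h1.trans_lt h2)).1
      rw [Complex.sub_re] at h3
      linarith
    rw [norm_mul, norm_mul, Complex.norm_real, Complex.norm_exp, norm_neg, Complex.norm_real,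
      Real.norm_eq_abs, Real.norm_eq_abs, abs_of_nonneg hx, abs_mul, abs_of_pos (Real.exp_pos _)]
    have e1 : (-(p * (r x : ℂ))).re = -(p.re * r x) := by simp
    rw [e1]
    have h4 : Real.exp (-(p.re * r x)) ≤ Real.exp (-(ε * r x)) := by
      apply Real.exp_le_exp.2
      nlinarith
    have h5 : r x ≤ (2 / ε) * Real.exp ((ε / 2) * r x) := by
      have := Real.add_one_le_exp ((ε / 2) * r x)
      have h6 : (ε / 2) * r x ≤ Real.exp ((ε / 2) * r x) := by linarith
      calc r x = (2 / ε) * ((ε / 2) * r x) := by field_simp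
        _ ≤ _ := by gcongr
    calc |w x| * (Real.exp (-(p.re * r x)) * r x) ≤
        |w x| * (Real.exp (-(ε * r x)) * ((2 / ε) * Real.exp ((ε / 2) * r x))) := by
          gcongr
      _ = 2 / ε * (|w x| * (Real.exp (-(ε * r x)) * Real.exp ((ε / 2) * r x))) := by ring
      _ = 2 / ε * (|w x| * Real.exp (-((ε / 2) * r x))) := by
          rw [← Real.exp_add]
          congr 3
          ring
  · exact ((hint (ε / 2) (by positivity)).abs).const_mul _
  · refine Eventually.of_forall fun x p _ => ?_
    have h1 : HasDerivAt (fun p : ℂ => -(p * (r x : ℂ))) (-(r x : ℂ)) p := by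
      have h2 : HasDerivAt (fun p : ℂ => p * (-(r x : ℂ))) (1 * (-(r x : ℂ))) p :=
        (hasDerivAt_id p).mul_const (-(r x : ℂ))
      rw [one_mul] at h2
      refine h2.congr_of_eventuallyEq (Eventually.of_forall fun y => ?_)
      simp
    exact (h1.cexp).const_mul _

/-- identity theorem on the right half plane -/
theorem halfplane_eq {f g : ℂ → ℂ} (hf : DifferentiableOn ℂ f {p | 0 < p.re})
    (hg : DifferentiableOn ℂ g {p | 0 < p.re})
    (h : ∀ p : ℝ, 0 < p → p < 1 → f p = g p) : ∀ p : ℂ, 0 < p.re → f p = g p := by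
  have hopen : IsOpen {p : ℂ | 0 < p.re} := isOpen_lt continuous_const Complex.continuous_re
  have hconn : IsPreconnected {p : ℂ | 0 < p.re} := (convex_halfSpace_re_gt 0).isPreconnected
  have hfa := hf.analyticOnNhd hopen
  have hga := hg.analyticOnNhd hopen
  have h0 : (((1 / 2 : ℝ) : ℂ)) ∈ {p : ℂ | 0 < p.re} := by
    simp
  have hfreq : ∃ᶠ z in 𝓝[≠] (((1 / 2 : ℝ) : ℂ)), f z = g z := by
    have ht : Tendsto (fun n : ℕ => (((1 / 2 + 1 / ((n : ℝ) + 3) : ℝ)) : ℂ)) atTop
        (𝓝[≠] (((1 / 2 : ℝ) : ℂ))) := by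
      rw [tendsto_nhdsWithin_iff]
      constructor
      · have h1 : Tendsto (fun n : ℕ => (1 / 2 + 1 / ((n : ℝ) + 3) : ℝ)) atTop (𝓝 (1 / 2 + 0)) := by
          apply Tendsto.const_add
          have h2 : Tendsto (fun n : ℕ => (n : ℝ) + 3) atTop atTop :=
            tendsto_atTop_add_const_right _ _ tendsto_natCast_atTop_atTop
          have h3 := h2.inv_tendsto_atTop
          refine h3.congr fun n => ?_
          simp
        rw [add_zero] at h1
        exact (Complex.continuous_ofReal.tendsto _).comp h1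
      · refine Eventually.of_forall fun n => ?_
        simp only [mem_compl_iff, mem_singleton_iff]
        intro h
        have h1 : (1 / 2 + 1 / ((n : ℝ) + 3) : ℝ) = 1 / 2 := by exact_mod_cast h
        have h2 : 0 < 1 / ((n : ℝ) + 3) := by positivity
        linarith
    refine ht.frequently (Eventually.frequently (Eventually.of_forall fun n => ?_))
    apply h
    · positivity
    · have : (1 : ℝ) / ((n : ℝ) + 3) ≤ 1 / 3 := by
        apply one_div_le_one_div_of_le (by norm_num)
        have : (0 : ℝ) ≤ n := Nat.cast_nonneg n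
        linarith
      linarith
  intro p hp
  exact hfa.eqOn_of_preconnected_of_frequently_eq hga hconn h0 hfreq hp

end Pool.Agent.W438.Vol
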