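import Pool.Agent.W438.Vol.Main3

set_option autoImplicit false

open MeasureTheory ProbabilityTheory Set Filter Topology

namespace Pool.Agent.W438.Vol

/-- the open light cone -/
def LC : Set (Fin 7 → ℝ) := {x | 0 < x 0 ∧ sy x < x 0 ^ 2}

lemma measurableSet_LC : MeasurableSet LC := by
  have : LC = {x | 0 < x 0} ∩ {x | sy x < x 0 ^ 2} := by ext; simp [LC]
  rw [this]
  exact (measurableSet_lt measurable_const (measurable_pi_apply _)).inter
    (measurableSet_lt measurable_sy ((measurable_pi_apply _).pow_const _))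

noncomputable def dens (x : Fin 7 → ℝ) : ENNReal := ENNReal.ofReal (Real.exp (-(rr x)))

lemma measurable_dens : Measurable dens := by
  unfold dens
  have := measurable_rr
  fun_prop

/-- the Lorentz invariant measure -/
noncomputable def muM : Measure (Fin 7 → ℝ) := ((volume : Measure (Fin 7 → ℝ)).restrict LC).withDensity dens

lemma muM_apply {S : Set (Fin 7 → ℝ)} (hS : MeasurableSet S) :
    muM S = ∫⁻ x in S ∩ LC, dens x := by
  unfold muM
  rw [withDensity_apply _ hS, Measure.restrict_restrict hS]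

lemma mp_of {T : (Fin 7 → ℝ) → (Fin 7 → ℝ)} (hT : MeasurePreserving T volume volume)
    (hLC : T ⁻¹' LC = LC) (hd : ∀ x, rr (T x) = rr x) : MeasurePreserving T muM muM := by
  refine ⟨hT.measurable, ?_⟩
  ext S hS
  rw [Measure.map_apply hT.measurable hS, muM_apply (hT.measurable hS), muM_apply hS]
  have : T ⁻¹' S ∩ LC = T ⁻¹' (S ∩ LC) := by rw [preimage_inter, hLC]
  rw [this, ← hT.setLIntegral_comp_preimage (hS.inter measurableSet_LC) measurable_dens]
  refine lintegral_congr fun x => ?_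
  unfold dens
  rw [hd]

lemma r0_val (x : Fin 7 → ℝ) : r0 x 0 = x 0 + (x 0 - x 1 - x 2 - x 3) ∧
    r0 x 1 = x 1 + (x 0 - x 1 - x 2 - x 3) ∧ r0 x 2 = x 2 + (x 0 - x 1 - x 2 - x 3) ∧
    r0 x 3 = x 3 + (x 0 - x 1 - x 2 - x 3) ∧ r0 x 4 = x 4 ∧ r0 x 5 = x 5 ∧ r0 x 6 = x 6 := by
  refine ⟨?_, ?_, ?_, ?_, ?_, ?_, ?_⟩ <;> simp [r0, aa]

lemma r0_r0 (x : Fin 7 → ℝ) : r0 (r0 x) = x := by
  obtain ⟨a0, a1, a2, a3, a4, a5, a6⟩ := r0_val x
  obtain ⟨b0, b1, b2, b3, b4, b5, b6⟩ := r0_val (r0 x)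
  rw [a0, a1, a2, a3] at b0 b1 b2 b3
  funext i
  match i with
  | 0 => rw [b0]; ring
  | 1 => rw [b1]; ring
  | 2 => rw [b2]; ring
  | 3 => rw [b3]; ring
  | 4 => rw [b4, a4]
  | 5 => rw [b5, a5]
  | 6 => rw [b6, a6]

/-- `r0` as a linear map -/
def r0L : (Fin 7 → ℝ) →ₗ[ℝ] (Fin 7 → ℝ) where
  toFun := r0
  map_add' := by
    intro x y
    funext i
    simp only [r0, Pi.add_apply]
    ring
  map_smul' := by
    intro c x
    funext i
    simp only [r0, Pi.smul_apply, smul_eq_mul, RingHom.id_apply]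
    ring

lemma det_r0L : |LinearMap.det r0L| = 1 := by
  have h : r0L * r0L = 1 := by
    apply LinearMap.ext
    intro x
    exact r0_r0 x
  have h2 := congrArg LinearMap.det h
  rw [map_mul, map_one] at h2
  have h3 : |LinearMap.det r0L| * |LinearMap.det r0L| = 1 := by rw [← abs_mul, h2, abs_one]
  nlinarith [abs_nonneg (LinearMap.det r0L)]

lemma r0_vol : MeasurePreserving r0 (volume : Measure (Fin 7 → ℝ)) volume := by
  refine ⟨measurable_r0, ?_⟩
  have hd : LinearMap.det r0L ≠ 0 := by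
    intro h
    have := det_r0L
    rw [h] at this
    simp at this
  have h := Real.map_linearMap_volume_pi_eq_smul_volume_pi hd
  rw [abs_inv, det_r0L, inv_one, ENNReal.ofReal_one, one_smul] at h
  exact h

lemma rr_r0 (x : Fin 7 → ℝ) : rr (r0 x) = rr x := by
  unfold rr
  rw [sy_eq, sy_eq]
  obtain ⟨a0, a1, a2, a3, a4, a5, a6⟩ := r0_val x
  rw [a0, a1, a2, a3, a4, a5, a6]
  ring

lemma r0_LC_sub (x : Fin 7 → ℝ) (hx : x ∈ LC) : r0 x ∈ LC := by
  obtain ⟨h0, h1⟩ := hx
  have h2 := rr_r0 x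
  unfold rr at h2
  refine ⟨?_, by linarith⟩
  obtain ⟨a0, _⟩ := r0_val x
  rw [a0]
  rw [sy_eq] at h1
  have h3 : (x 1 + x 2 + x 3) ^ 2 ≤ 3 * x 0 ^ 2 := by
    nlinarith [sq_nonneg (x 1 - x 2), sq_nonneg (x 1 - x 3), sq_nonneg (x 2 - x 3), sq_nonneg (x 4),
      sq_nonneg (x 5), sq_nonneg (x 6)]
  have h4 : x 1 + x 2 + x 3 < 2 * x 0 := by
    by_contra h
    push Not at h
    have : (2 * x 0) ^ 2 ≤ (x 1 + x 2 + x 3) ^ 2 := by
      apply pow_le_pow_left₀ (by linarith) h
    nlinarith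
  linarith

lemma r0_LC : r0 ⁻¹' LC = LC := by
  ext x
  constructor
  · intro h
    have := r0_LC_sub _ h
    rwa [r0_r0] at this
  · intro h; exact r0_LC_sub x h

/-- the cone over `P⁶` -/
def CP : Set (Fin 7 → ℝ) := {x | (∀ i : Fin 7, i ≠ 0 → 0 ≤ x i) ∧
  (∀ i j : Fin 7, i ≠ 0 → j ≠ 0 → i ≠ j → x i + x j ≤ x 0) ∧
  (∀ j : Fin 7, j ≠ 0 → (∑ k : Fin 6, x k.succ) - x j ≤ 2 * x 0)}

lemma measurableSet_CP : MeasurableSet CP := by
  have : CP = (⋂ i : Fin 7, {x | i ≠ 0 → 0 ≤ x i}) ∩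
      ((⋂ i : Fin 7, ⋂ j : Fin 7, {x | i ≠ 0 → j ≠ 0 → i ≠ j → x i + x j ≤ x 0}) ∩
      (⋂ j : Fin 7, {x | j ≠ 0 → (∑ k : Fin 6, x k.succ) - x j ≤ 2 * x 0})) := by
    ext; simp [CP]
  rw [this]
  refine MeasurableSet.inter ?_ (MeasurableSet.inter ?_ ?_)
  · refine MeasurableSet.iInter fun i => ?_
    by_cases h : i = 0
    · simp [h]
    · simp only [ne_eq, h, not_false_eq_true, true_implies]
      exact measurableSet_le measurable_const (measurable_pi_apply _)
  · refine MeasurableSet.iInter fun i => MeasurableSet.iInter fun j => ?_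
    by_cases h : i = 0
    · simp [h]
    by_cases h' : j = 0
    · simp [h']
    by_cases h'' : i = j
    · simp [h'']
    simp only [ne_eq, h, h', h'', not_false_eq_true, true_implies]
    apply measurableSet_le <;> fun_prop
  · refine MeasurableSet.iInter fun j => ?_
    by_cases h : j = 0
    · simp [h]
    · simp only [ne_eq, h, not_false_eq_true, true_implies]
      apply measurableSet_le <;> fun_prop

lemma sum6 (x : Fin 7 → ℝ) : ∑ k : Fin 6, x k.succ = x 1 + x 2 + x 3 + x 4 + x 5 + x 6 := by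
  simp [Fin.sum_univ_succ]; ring

/-- explicit form -/
lemma CP_iff (x : Fin 7 → ℝ) : x ∈ CP ↔
    ((0 ≤ x 1 ∧ 0 ≤ x 2 ∧ 0 ≤ x 3 ∧ 0 ≤ x 4 ∧ 0 ≤ x 5 ∧ 0 ≤ x 6) ∧
    (x 1 + x 2 ≤ x 0 ∧ x 1 + x 3 ≤ x 0 ∧ x 1 + x 4 ≤ x 0 ∧ x 1 + x 5 ≤ x 0 ∧ x 1 + x 6 ≤ x 0 ∧
      x 2 + x 3 ≤ x 0 ∧ x 2 + x 4 ≤ x 0 ∧ x 2 + x 5 ≤ x 0 ∧ x 2 + x 6 ≤ x 0 ∧
      x 3 + x 4 ≤ x 0 ∧ x 3 + x 5 ≤ x 0 ∧ x 3 + x 6 ≤ x 0 ∧
      x 4 + x 5 ≤ x 0 ∧ x 4 + x 6 ≤ x 0 ∧ x 5 + x 6 ≤ x 0) ∧
    (x 2 + x 3 + x 4 + x 5 + x 6 ≤ 2 * x 0 ∧ x 1 + x 3 + x 4 + x 5 + x 6 ≤ 2 * x 0 ∧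
      x 1 + x 2 + x 4 + x 5 + x 6 ≤ 2 * x 0 ∧ x 1 + x 2 + x 3 + x 5 + x 6 ≤ 2 * x 0 ∧
      x 1 + x 2 + x 3 + x 4 + x 6 ≤ 2 * x 0 ∧ x 1 + x 2 + x 3 + x 4 + x 5 ≤ 2 * x 0)) := by
  simp only [CP, Set.mem_ofPred_eq, sum6]
  constructor
  · rintro ⟨h1, h2, h3⟩
    refine ⟨⟨h1 1 (by decide), h1 2 (by decide), h1 3 (by decide), h1 4 (by decide), h1 5 (by decide),
      h1 6 (by decide)⟩, ⟨h2 1 2 (by decide) (by decide) (by decide),
      h2 1 3 (by decide) (by decide) (by decide), h2 1 4 (by decide) (by decide) (by decide),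
      h2 1 5 (by decide) (by decide) (by decide), h2 1 6 (by decide) (by decide) (by decide),
      h2 2 3 (by decide) (by decide) (by decide), h2 2 4 (by decide) (by decide) (by decide),
      h2 2 5 (by decide) (by decide) (by decide), h2 2 6 (by decide) (by decide) (by decide),
      h2 3 4 (by decide) (by decide) (by decide), h2 3 5 (by decide) (by decide) (by decide),
      h2 3 6 (by decide) (by decide) (by decide), h2 4 5 (by decide) (by decide) (by decide),
      h2 4 6 (by decide) (by decide) (by decide), h2 5 6 (by decide) (by decide) (by decide)⟩, ?_⟩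
    have c1 := h3 1 (by decide)
    have c2 := h3 2 (by decide)
    have c3 := h3 3 (by decide)
    have c4 := h3 4 (by decide)
    have c5 := h3 5 (by decide)
    have c6 := h3 6 (by decide)
    refine ⟨?_, ?_, ?_, ?_, ?_, ?_⟩ <;> linarith
  · rintro ⟨⟨a1, a2, a3, a4, a5, a6⟩, ⟨b12, b13, b14, b15, b16, b23, b24, b25, b26, b34, b35, b36,
      b45, b46, b56⟩, ⟨c1, c2, c3, c4, c5, c6⟩⟩
    refine ⟨?_, ?_, ?_⟩
    · intro i hi
      match i with
      | 0 => exact absurd rfl hi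
      | 1 => exact a1
      | 2 => exact a2
      | 3 => exact a3
      | 4 => exact a4
      | 5 => exact a5
      | 6 => exact a6
    · intro i j hi hj hij
      match i with
      | 0 => exact absurd rfl hi
      | 1 =>
        match j with
        | 0 => exact absurd rfl hj
        | 1 => exact absurd rfl hij
        | 2 => linarith
        | 3 => linarith
        | 4 => linarith
        | 5 => linarith
        | 6 => linarith
      | 2 =>
        match j with
        | 0 => exact absurd rfl hj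
        | 1 => linarith
        | 2 => exact absurd rfl hij
        | 3 => linarith
        | 4 => linarith
        | 5 => linarith
        | 6 => linarith
      | 3 =>
        match j with
        | 0 => exact absurd rfl hj
        | 1 => linarith
        | 2 => linarith
        | 3 => exact absurd rfl hij
        | 4 => linarith
        | 5 => linarith
        | 6 => linarith
      | 4 =>
        match j with
        | 0 => exact absurd rfl hj
        | 1 => linarith
        | 2 => linarith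
        | 3 => linarith
        | 4 => exact absurd rfl hij
        | 5 => linarith
        | 6 => linarith
      | 5 =>
        match j with
        | 0 => exact absurd rfl hj
        | 1 => linarith
        | 2 => linarith
        | 3 => linarith
        | 4 => linarith
        | 5 => exact absurd rfl hij
        | 6 => linarith
      | 6 =>
        match j with
        | 0 => exact absurd rfl hj
        | 1 => linarith
        | 2 => linarith
        | 3 => linarith
        | 4 => linarith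
        | 5 => linarith
        | 6 => exact absurd rfl hij
    · intro j hj
      match j with
      | 0 => exact absurd rfl hj
      | 1 => linarith
      | 2 => linarith
      | 3 => linarith
      | 4 => linarith
      | 5 => linarith
      | 6 => linarith

lemma r0_CP_sub (x : Fin 7 → ℝ) (hx : x ∈ CP) : r0 x ∈ CP := by
  rw [CP_iff] at hx ⊢
  obtain ⟨⟨a1, a2, a3, a4, a5, a6⟩, ⟨b12, b13, b14, b15, b16, b23, b24, b25, b26, b34, b35, b36,
      b45, b46, b56⟩, ⟨c1, c2, c3, c4, c5, c6⟩⟩ := hx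
  obtain ⟨e0, e1, e2, e3, e4, e5, e6⟩ := r0_val x
  rw [e0, e1, e2, e3, e4, e5, e6]
  refine ⟨⟨?_, ?_, ?_, ?_, ?_, ?_⟩, ⟨?_, ?_, ?_, ?_, ?_, ?_, ?_, ?_, ?_, ?_, ?_, ?_, ?_, ?_, ?_⟩,
    ⟨?_, ?_, ?_, ?_, ?_, ?_⟩⟩ <;> linarith

lemma r0_CP : r0 ⁻¹' CP = CP := by
  ext x
  constructor
  · intro h
    have := r0_CP_sub _ h
    rwa [r0_r0] at this
  · intro h; exact r0_CP_sub x h

end Pool.Agent.W438.Vol
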