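import Pool.Agent.W438.Vol.Cone

set_option autoImplicit false

open MeasureTheory ProbabilityTheory Set Filter Topology

namespace Pool.Agent.W438.Vol

lemma sum_succ_perm (τ : Equiv.Perm (Fin 7)) (hτ : τ 0 = 0) (f : Fin 7 → ℝ) :
    ∑ k : Fin 6, f (τ k.succ) = ∑ k : Fin 6, f k.succ := by
  have h1 := Fin.sum_univ_succ (fun i => f (τ i))
  have h2 := Fin.sum_univ_succ f
  have h3 := Equiv.sum_comp τ f
  rw [hτ] at h1
  linarith

lemma sy_perm (τ : Equiv.Perm (Fin 7)) (hτ : τ 0 = 0) (x : Fin 7 → ℝ) :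
    sy (fun i => x (τ i)) = sy x := sum_succ_perm τ hτ (fun i => x i ^ 2)

lemma perm_vol (τ : Equiv.Perm (Fin 7)) :
    MeasurePreserving (fun (x : Fin 7 → ℝ) i => x (τ i)) volume volume := by
  have h := volume_measurePreserving_piCongrLeft (fun _ : Fin 7 => ℝ) τ⁻¹
  have e : (MeasurableEquiv.piCongrLeft (fun _ : Fin 7 => ℝ) τ⁻¹ : (Fin 7 → ℝ) → (Fin 7 → ℝ)) =
      fun (x : Fin 7 → ℝ) i => x (τ i) := by
    funext x i
    have : i = τ⁻¹ (τ i) := by simp
    conv_lhs => rw [this]
    rw [MeasurableEquiv.coe_piCongrLeft, Equiv.piCongrLeft_apply_apply]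
  rw [← e]
  exact h

lemma perm_LC (τ : Equiv.Perm (Fin 7)) (hτ : τ 0 = 0) :
    (fun (x : Fin 7 → ℝ) i => x (τ i)) ⁻¹' LC = LC := by
  ext x
  simp only [LC, mem_preimage, Set.mem_ofPred_eq, hτ, sy_perm τ hτ]

lemma perm_CP (τ : Equiv.Perm (Fin 7)) (hτ : τ 0 = 0) :
    (fun (x : Fin 7 → ℝ) i => x (τ i)) ⁻¹' CP = CP := by
  have hne : ∀ i, i ≠ 0 → τ i ≠ 0 := by
    intro i hi h
    apply hi
    apply τ.injective
    rw [h, hτ]
  have hne' : ∀ i, i ≠ 0 → τ⁻¹ i ≠ 0 := by
    intro i hi h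
    apply hi
    have := congrArg τ h
    simpa [hτ] using this
  ext x
  simp only [CP, mem_preimage, Set.mem_ofPred_eq, hτ]
  have hs : ∑ k : Fin 6, x (τ k.succ) = ∑ k : Fin 6, x k.succ := sum_succ_perm τ hτ x
  rw [hs]
  constructor
  · rintro ⟨h1, h2, h3⟩
    refine ⟨fun i hi => ?_, fun i j hi hj hij => ?_, fun j hj => ?_⟩
    · simpa using h1 (τ⁻¹ i) (hne' i hi)
    · simpa using h2 (τ⁻¹ i) (τ⁻¹ j) (hne' i hi) (hne' j hj) (fun h => hij (τ⁻¹.injective h))
    · simpa using h3 (τ⁻¹ j) (hne' j hj)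
  · rintro ⟨h1, h2, h3⟩
    refine ⟨fun i hi => ?_, fun i j hi hj hij => ?_, fun j hj => ?_⟩
    · exact h1 (τ i) (hne i hi)
    · exact h2 (τ i) (τ j) (hne i hi) (hne j hj) (fun h => hij (τ.injective h))
    · exact h3 (τ j) (hne j hj)

lemma vol_null (v : Fin 7 → ℝ) (hv : v ≠ 0) :
    (volume : Measure (Fin 7 → ℝ)) {x | ∑ i, v i * x i = 0} = 0 := by
  let L : (Fin 7 → ℝ) →ₗ[ℝ] ℝ := ∑ i, v i • LinearMap.proj i
  have hL : ∀ x, L x = ∑ i, v i * x i := by
    intro x
    simp [L, LinearMap.sum_apply]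
  have h := Measure.addHaar_submodule (volume : Measure (Fin 7 → ℝ)) (LinearMap.ker L) (by
    intro htop
    apply hv
    funext i
    have : (Pi.single i 1 : Fin 7 → ℝ) ∈ LinearMap.ker L := by rw [htop]; trivial
    rw [LinearMap.mem_ker, hL] at this
    simpa [Pi.single_apply] using this)
  refine measure_mono_null ?_ h
  intro x hx
  simp only [Set.mem_ofPred_eq] at hx
  simp only [SetLike.mem_coe, LinearMap.mem_ker, hL, hx]

lemma muM_ac : muM ≪ (volume : Measure (Fin 7 → ℝ)) :=
  (withDensity_absolutelyContinuous _ _).trans Measure.absolutelyContinuous_restrict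

lemma invM : Inv muM CP where
  meas := measurableSet_CP
  refl := mp_of r0_vol r0_LC rr_r0
  reflA := r0_CP
  perm := fun τ hτ => mp_of (perm_vol τ) (perm_LC τ hτ) (fun x => by
    unfold rr
    simp only [sy_perm τ hτ, hτ])
  permA := perm_CP
  null := fun v hv => muM_ac (vol_null v hv)

lemma muM_CP : muM CP = 51840 * MM := by
  rw [tile invM]
  congr 1
  have h1 : muM (CP ∩ CH) = muM CD := by
    apply measure_congr
    rw [Filter.eventuallyEq_set]
    have hae : ∀ᵐ x ∂muM, ∀ i : Fin 7, XX x i ≠ 0 := by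
      rw [ae_all_iff]
      intro i
      rw [ae_iff]
      have := invM.null (fun c => (AN i c : ℝ)) (by
        intro h
        obtain ⟨c, hc⟩ := AN_nz i
        apply hc
        have := congrFun h c
        simpa using this)
      simpa [XX] using this
    filter_upwards [hae] with x hx
    have h1 := hx 1
    have h2 := hx 2
    have h3 := hx 3
    have h4 := hx 4
    have h5 := hx 5
    rw [XX1] at h1
    rw [XX2] at h2
    rw [XX3] at h3
    rw [XX4] at h4
    rw [XX5] at h5
    rw [CD_iff]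
    constructor
    · rintro ⟨hxP, hxS, hx0⟩
      have hP := (CP_iff x).1 hxP
      obtain ⟨⟨a1, a2, a3, a4, a5, a6⟩, _⟩ := hP
      have s1 : x 2 < x 1 := hxS (show (0 : Fin 6) < 1 by decide)
      have s2 : x 3 < x 2 := hxS (show (1 : Fin 6) < 2 by decide)
      have s3 : x 4 < x 3 := hxS (show (2 : Fin 6) < 3 by decide)
      have s4 : x 5 < x 4 := hxS (show (3 : Fin 6) < 4 by decide)
      have s5 : x 6 < x 5 := hxS (show (4 : Fin 6) < 5 by decide)
      exact ⟨hx0, by linarith, by linarith, by linarith, by linarith, by linarith, a6⟩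
    · rintro ⟨c0, c1, c2, c3, c4, c5, c6⟩
      have s1 : x 2 < x 1 := by
        have := lt_of_le_of_ne c1 (Ne.symm h1); linarith
      have s2 : x 3 < x 2 := by
        have := lt_of_le_of_ne c2 (Ne.symm h2); linarith
      have s3 : x 4 < x 3 := by
        have := lt_of_le_of_ne c3 (Ne.symm h3); linarith
      have s4 : x 5 < x 4 := by
        have := lt_of_le_of_ne c4 (Ne.symm h4); linarith
      have s5 : x 6 < x 5 := by
        have := lt_of_le_of_ne c5 (Ne.symm h5); linarith
      refine ⟨?_, ?_, c0⟩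
      · rw [CP_iff]
        refine ⟨⟨?_, ?_, ?_, ?_, ?_, ?_⟩, ⟨?_, ?_, ?_, ?_, ?_, ?_, ?_, ?_, ?_, ?_, ?_, ?_, ?_, ?_, ?_⟩,
          ⟨?_, ?_, ?_, ?_, ?_, ?_⟩⟩ <;> linarith
      · change StrictAnti fun k : Fin 6 => x k.succ
        rw [Fin.strictAnti_iff_succ_lt]
        intro i
        match i with
        | 0 => exact s1
        | 1 => exact s2
        | 2 => exact s3
        | 3 => exact s4
        | 4 => exact s5
  rw [h1, muM_apply measurableSet_CD]
  unfold MM
  have h2 : (CD ∩ LC : Set (Fin 7 → ℝ)) =ᵐ[volume] CD := by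
    rw [Filter.eventuallyEq_set]
    have hae : ∀ᵐ x : Fin 7 → ℝ, x 2 ≠ 0 := by
      rw [ae_iff]
      have := vol_null (Pi.single 2 1) (by
        intro h; have := congrFun h 2; simp at this)
      simpa [Pi.single_apply] using this
    filter_upwards [hae] with x hx
    constructor
    · rintro ⟨h, _⟩; exact h
    · intro h
      refine ⟨h, ?_, ?_⟩
      · have h3 := CD_q x h
        have h4 := CD_x0 x h
        have h5 : 0 < x 2 ^ 2 := by positivity
        have h6 := sy_nonneg x
        by_contra hc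
        have : x 0 = 0 := le_antisymm (not_lt.1 hc) h4
        rw [this] at h3
        nlinarith
      · have h3 := CD_q x h
        have h5 : 0 < x 2 ^ 2 := by positivity
        linarith
  rw [setLIntegral_congr h2]
  rfl

end Pool.Agent.W438.Vol
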