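import Pool.Agent.W438.Vol.Tel

set_option autoImplicit false

open MeasureTheory ProbabilityTheory Set Filter Topology

namespace Pool.Agent.W438.Vol

theorem lintegral_fin_prod {n : ℕ} (μ : Fin n → Measure ℝ) [∀ i, SigmaFinite (μ i)]
    (f : Fin n → ℝ → ENNReal) (hf : ∀ i, Measurable (f i)) :
    ∫⁻ x : Fin n → ℝ, ∏ i, f i (x i) ∂(Measure.pi μ) = ∏ i, ∫⁻ x, f i x ∂(μ i) := by
  induction n with
  | zero => simp
  | succ n n_ih =>
      calc
        _ = ∫⁻ x : ℝ × (Fin n → ℝ),
            f 0 x.1 * ∏ i : Fin n, f (Fin.succ i) (x.2 i)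
            ∂((μ 0).prod (Measure.pi (fun i ↦ μ i.succ))) := by
          rw [← ((measurePreserving_piFinSuccAbove μ 0).symm).lintegral_comp_emb
            (MeasurableEquiv.measurableEmbedding _)]
          simp_rw [MeasurableEquiv.piFinSuccAbove_symm_apply, Fin.insertNthEquiv,
            Fin.prod_univ_succ, Fin.insertNth_zero, Equiv.coe_fn_mk, Fin.cons_succ,
            Fin.zero_succAbove, cast_eq, Fin.cons_zero]
        _ = (∫⁻ x, f 0 x ∂μ 0)
            * ∏ i : Fin n, ∫⁻ (x : ℝ), f (Fin.succ i) x ∂(μ i.succ) := by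
          rw [← n_ih (fun i => μ i.succ) (fun i => f i.succ) (fun i => hf _)]
          exact lintegral_prod_mul (hf 0).aemeasurable (Finset.measurable_prod _ (fun i _ =>
            (hf _).comp (measurable_pi_apply i))).aemeasurable
        _ = ∏ i, ∫⁻ x, f i x ∂(μ i) := by rw [Fin.prod_univ_succ]

theorem pi_withDensity {n : ℕ} (g : Fin n → ℝ → ENNReal) (hg : ∀ i, Measurable (g i))
    [∀ i, SigmaFinite ((volume : Measure ℝ).withDensity (g i))] :
    Measure.pi (fun i => (volume : Measure ℝ).withDensity (g i)) =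
      (Measure.pi (fun _ : Fin n => (volume : Measure ℝ))).withDensity (fun y => ∏ i, g i (y i)) := by
  apply Measure.pi_eq
  intro s hs
  rw [withDensity_apply _ (MeasurableSet.univ_pi hs), Measure.restrict_pi_pi,
    lintegral_fin_prod _ _ hg]
  apply Finset.prod_congr rfl
  intro i _
  rw [withDensity_apply _ (hs i)]

/-- the closed cone over the Coxeter simplex -/
def CD : Set (Fin 7 → ℝ) := {x | ∀ i, 0 ≤ XX x i}

lemma measurableSet_CD : MeasurableSet CD := by
  have : CD = ⋂ i, {x | 0 ≤ XX x i} := by ext; simp [CD]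
  rw [this]
  refine MeasurableSet.iInter fun i => ?_
  apply measurableSet_le measurable_const
  unfold XX
  fun_prop

noncomputable def Qf (p : ℝ) (x : Fin 7 → ℝ) : ℝ := p * x 0 ^ 2 + (1 - p) * ∑ k : Fin 6, x k.succ ^ 2

noncomputable def cst (p : ℝ) : ℝ := ((Real.sqrt (2 * Real.pi))⁻¹) ^ 7 * (Real.sqrt p * (1 - p) ^ 3)

lemma t0_eq (p : ℝ) (hp0 : 0 < p) (hp1 : p < 1) :
    gam 7 (VV p ⁻¹' TP 0) = ∫⁻ x in CD, ENNReal.ofReal (cst p * Real.exp (-(Qf p x / 2))) := by
  have hq : 0 < 1 - p := by linarith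
  have hsp : 0 < Real.sqrt p := Real.sqrt_pos.2 hp0
  have hsq : 0 < Real.sqrt (1 - p) := Real.sqrt_pos.2 hq
  have hD : ∀ c, 0 < DD p c := by
    intro c
    unfold DD
    split_ifs <;> positivity
  let v : Fin 7 → NNReal := fun c => NNReal.mk (DD p c ^ 2) (sq_nonneg _)
  have hv : ∀ c, v c ≠ 0 := by
    intro c h
    have := congrArg NNReal.toReal h
    simp only [v, NNReal.coe_mk, NNReal.coe_zero] at this
    have h2 := hD c
    have h3 : 0 < DD p c ^ 2 := by positivity
    linarith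
  have e1 : (gam 7).map (fun g c => DD p c * g c) = Measure.pi (fun c => gaussianReal 0 (v c)) := by
    have hms : ∀ c, SigmaFinite ((gaussianReal 0 1).map (fun x => DD p c * x)) := by
      intro c
      rw [gaussianReal_map_const_mul]
      infer_instance
    have h5 : ∀ c : Fin 7, AEMeasurable (fun x : ℝ => DD p c * x) (gaussianReal 0 1) := fun c => by
      fun_prop
    have h6 := Measure.pi_map_pi (μ := fun _ : Fin 7 => gaussianReal 0 1) h5
    refine h6.trans ?_
    congr 1
    funext c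
    rw [gaussianReal_map_const_mul]
    simp [v]
  have hsf : ∀ c, SigmaFinite ((volume : Measure ℝ).withDensity (gaussianPDF 0 (v c))) := by
    intro c
    rw [← gaussianReal_of_var_ne_zero _ (hv c)]
    infer_instance
  have e2 : Measure.pi (fun c => gaussianReal 0 (v c)) =
      (volume : Measure (Fin 7 → ℝ)).withDensity (fun x => ∏ c, gaussianPDF 0 (v c) (x c)) := by
    have : (fun c => gaussianReal 0 (v c)) = fun c =>
        (volume : Measure ℝ).withDensity (gaussianPDF 0 (v c)) := by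
      funext c; rw [gaussianReal_of_var_ne_zero _ (hv c)]
    rw [this, pi_withDensity _ (fun c => measurable_gaussianPDF _ _)]
    rfl
  have hm : Measurable (fun (g : Fin 7 → ℝ) c => DD p c * g c) := by fun_prop
  have e3 : VV p ⁻¹' TP 0 = (fun (g : Fin 7 → ℝ) c => DD p c * g c) ⁻¹' CD := by
    ext g
    simp [VV, TP, CD]
  rw [e3, ← Measure.map_apply hm measurableSet_CD, e1, e2, withDensity_apply _ measurableSet_CD]
  refine lintegral_congr fun x => ?_
  simp only [gaussianPDF]
  rw [← ENNReal.ofReal_prod_of_nonneg (fun c _ => gaussianPDFReal_nonneg _ _ _)]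
  congr 1
  have h0 : gaussianPDFReal 0 (v 0) (x 0) = (Real.sqrt (2 * Real.pi))⁻¹ * Real.sqrt p *
      Real.exp (-(p * x 0 ^ 2 / 2)) := by
    simp only [gaussianPDFReal, v, NNReal.coe_mk, DD, if_true, sub_zero]
    have h1 : (1 / Real.sqrt p) ^ 2 = 1 / p := by
      rw [div_pow, one_pow, Real.sq_sqrt hp0.le]
    rw [h1, Real.sqrt_mul (by positivity), Real.sqrt_div zero_le_one, Real.sqrt_one]
    congr 1
    · field_simp
    · congr 1
      field_simp
  have hc : ∀ c : Fin 6, gaussianPDFReal 0 (v c.succ) (x c.succ) = (Real.sqrt (2 * Real.pi))⁻¹ *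
      Real.sqrt (1 - p) * Real.exp (-((1 - p) * x c.succ ^ 2 / 2)) := by
    intro c
    simp only [gaussianPDFReal, v, NNReal.coe_mk, DD, Fin.succ_ne_zero, if_false, sub_zero]
    have h1 : (1 / Real.sqrt (1 - p)) ^ 2 = 1 / (1 - p) := by
      rw [div_pow, one_pow, Real.sq_sqrt hq.le]
    rw [h1, Real.sqrt_mul (by positivity), Real.sqrt_div zero_le_one, Real.sqrt_one]
    congr 1
    · field_simp
    · congr 1
      field_simp
  rw [Fin.prod_univ_succ, h0, Finset.prod_congr rfl (fun c _ => hc c), Finset.prod_mul_distrib,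
    ← Real.exp_sum, Finset.prod_const, Finset.card_univ, Fintype.card_fin]
  unfold cst Qf
  rw [show ((Real.sqrt (2 * Real.pi))⁻¹ * Real.sqrt p * Real.exp (-(p * x 0 ^ 2 / 2))) *
    (((Real.sqrt (2 * Real.pi))⁻¹ * Real.sqrt (1 - p)) ^ 6 *
      Real.exp (∑ c : Fin 6, -((1 - p) * x c.succ ^ 2 / 2))) =
      ((Real.sqrt (2 * Real.pi))⁻¹) ^ 7 * (Real.sqrt p * (Real.sqrt (1 - p) ^ 2) ^ 3) *
      (Real.exp (-(p * x 0 ^ 2 / 2)) * Real.exp (∑ c : Fin 6, -((1 - p) * x c.succ ^ 2 / 2))) by ring,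
    ← Real.exp_add, Real.sq_sqrt hq.le]
  congr 2
  rw [Finset.mul_sum, Finset.sum_neg_distrib, ← Finset.sum_div]
  ring

end Pool.Agent.W438.Vol
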