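import Pool.Agent.W438.Vol.Tile2

set_option autoImplicit false

open MeasureTheory ProbabilityTheory Set Filter Topology

namespace Pool.Agent.W438.Vol

/-- a linear map with `W(E₆)`-invariant covariance -/
def TT : Fin 7 → Fin 8 → ℤ :=
  ![![8,8,0,0,0,0,0,0], ![3,3,3,-1,-1,-1,-1,-1], ![3,3,-1,3,-1,-1,-1,-1], ![3,3,-1,-1,3,-1,-1,-1],
    ![3,3,-1,-1,-1,3,-1,-1], ![3,3,-1,-1,-1,-1,3,-1], ![3,3,-1,-1,-1,-1,-1,3]]

lemma TT_cov : ∀ i k, ∑ c, TT i c * TT k c =
    if i = k then (if i = 0 then 128 else 32) else (if i = 0 ∨ k = 0 then 48 else 16) := by decide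

/-- `r0` composed with `TT` -/
def RT : Fin 7 → Fin 8 → ℤ := fun i c => TT i c + (TT 0 c - TT 1 c - TT 2 c - TT 3 c) * aa i

lemma RT_cov : ∀ i k, ∑ c, RT i c * RT k c = ∑ c, TT i c * TT k c := by decide

noncomputable def TTr : Matrix (Fin 7) (Fin 8) ℝ := fun i c => (TT i c : ℝ)

noncomputable def muE : Measure (Fin 7 → ℝ) := (gam 8).map (fun g => TTr.mulVec g)

lemma measurable_TTr : Measurable (fun g : Fin 8 → ℝ => TTr.mulVec g) := by
  apply Continuous.measurable; fun_prop

lemma measurable_r0 : Measurable r0 := by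
  unfold r0
  fun_prop

lemma muE_univ : muE univ = 1 := by
  unfold muE
  rw [Measure.map_apply measurable_TTr MeasurableSet.univ]
  simp

lemma invE : Inv muE univ where
  meas := MeasurableSet.univ
  refl := by
    refine ⟨measurable_r0, ?_⟩
    unfold muE
    rw [Measure.map_map measurable_r0 measurable_TTr]
    have : (r0 ∘ fun g : Fin 8 → ℝ => TTr.mulVec g) =
        fun g => Matrix.mulVec (fun i c => (RT i c : ℝ) : Matrix (Fin 7) (Fin 8) ℝ) g := by
      funext g i
      simp only [Function.comp, r0, Matrix.mulVec, dotProduct, TTr, RT]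
      rw [← Finset.sum_sub_distrib, ← Finset.sum_sub_distrib, ← Finset.sum_sub_distrib,
        Finset.sum_mul, ← Finset.sum_add_distrib]
      refine Finset.sum_congr rfl fun c _ => ?_
      push_cast
      ring
    rw [this]
    apply map_gam_eq
    intro i k
    have := RT_cov i k
    simp only [TTr]
    exact_mod_cast this
  reflA := preimage_univ
  perm := by
    intro τ hτ
    have hm : Measurable (fun (x : Fin 7 → ℝ) i => x (τ i)) :=
      measurable_pi_lambda _ fun i => measurable_pi_apply _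
    refine ⟨hm, ?_⟩
    unfold muE
    rw [Measure.map_map hm measurable_TTr]
    have : ((fun (x : Fin 7 → ℝ) i => x (τ i)) ∘ fun g : Fin 8 → ℝ => TTr.mulVec g) =
        fun g => Matrix.mulVec (fun i c => TTr (τ i) c : Matrix (Fin 7) (Fin 8) ℝ) g := by
      funext g i
      simp only [Function.comp, Matrix.mulVec, dotProduct]
    rw [this]
    apply map_gam_eq
    intro i k
    have h1 := TT_cov i k
    have h2 := TT_cov (τ i) (τ k)
    have h0 : ∀ i, τ i = 0 ↔ i = 0 := by
      intro i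
      constructor
      · intro h; apply τ.injective; rw [h, hτ]
      · intro h; rw [h, hτ]
    simp only [τ.injective.eq_iff, h0] at h2
    rw [← h1] at h2
    simp only [TTr]
    exact_mod_cast h2
  permA := fun _ _ => preimage_univ
  null := by
    intro v hv
    have hS : MeasurableSet {x : Fin 7 → ℝ | ∑ i, v i * x i = 0} := by
      apply measurableSet_eq_fun
      · fun_prop
      · exact measurable_const
    unfold muE
    rw [Measure.map_apply measurable_TTr hS]
    have : (fun g : Fin 8 → ℝ => TTr.mulVec g) ⁻¹' {x : Fin 7 → ℝ | ∑ i, v i * x i = 0} =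
        {g | ∑ c, (∑ i, v i * TTr i c) * g c = 0} := by
      ext g
      simp only [mem_preimage, Set.mem_ofPred_eq, Matrix.mulVec, dotProduct, Finset.mul_sum,
        Finset.sum_mul]
      rw [Finset.sum_comm]
      simp only [mul_assoc]
    rw [this]
    apply gam_null
    intro h0
    apply hv
    have hc : ∀ c, ∑ i, v i * TTr i c = 0 := fun c => congrFun h0 c
    have c0 := hc 0
    have c2 := hc 2
    have c3 := hc 3
    have c4 := hc 4
    have c5 := hc 5
    have c6 := hc 6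
    have c7 := hc 7
    simp [TTr, TT, Fin.sum_univ_succ] at c0 c2 c3 c4 c5 c6 c7
    funext i
    fin_cases i <;> simp <;> linarith

/-- the `E₆` vertex -/
def B6 : Fin 7 → Fin 8 → ℤ := fun i c => ∑ k, AN i k * TT k c

noncomputable def b6 (i : Fin 7) (c : Fin 8) : ℝ := (B6 i c : ℝ) / 4

lemma g6int : ∀ i k, i ≠ 6 → k ≠ 6 → ∑ c, B6 i c * B6 k c =
    16 * (∑ c : Fin 6, AN i c.succ * AN k c.succ - AN i 0 * AN k 0) := by decide

lemma g6 : ∀ i k, i ≠ 6 → k ≠ 6 → ∑ c, b6 i c * b6 k c =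
      ∑ c : Fin 6, (AN i c.succ : ℝ) * AN k c.succ - (AN i 0 : ℝ) * AN k 0 := by
  intro i k hi hk
  have h := g6int i k hi hk
  have h' : ∑ c, (B6 i c : ℝ) * B6 k c =
    16 * (∑ c : Fin 6, (AN i c.succ : ℝ) * AN k c.succ - (AN i 0 : ℝ) * AN k 0) := by exact_mod_cast h
  have e : ∑ c, b6 i c * b6 k c = (∑ c, (B6 i c : ℝ) * B6 k c) / 16 := by
    rw [Finset.sum_div]
    refine Finset.sum_congr rfl fun c _ => ?_
    unfold b6; ring
  rw [e, h']
  ring

lemma n6int : ∀ i, i ≠ 6 → ∃ c, B6 i c ≠ 0 := by decide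

lemma n6 : ∀ i, i ≠ 6 → b6 i ≠ 0 := by
  intro i hi h0
  obtain ⟨c, hc⟩ := n6int i hi
  apply hc
  have := congrFun h0 c
  simpa [b6] using this

lemma XX_TT (g : Fin 8 → ℝ) (i : Fin 7) : XX (TTr.mulVec g) i = ∑ c, (B6 i c : ℝ) * g c := by
  unfold XX B6
  simp only [Matrix.mulVec, dotProduct, Finset.mul_sum]
  rw [Finset.sum_comm]
  refine Finset.sum_congr rfl fun c _ => ?_
  push_cast
  rw [Finset.sum_mul]
  refine Finset.sum_congr rfl fun k _ => ?_
  simp only [TTr]
  ring

lemma v6 : FF b6 6 0 = ENNReal.ofReal (1 / 51840) := by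
  rw [FF_zero _ _ n6]
  have hpos : MeasurableSet {f : Fin 8 → ℝ | ∀ i : Fin 7, i < 6 → 0 < ∑ c, (B6 i c : ℝ) * f c} := by
    have : {f : Fin 8 → ℝ | ∀ i : Fin 7, i < 6 → 0 < ∑ c, (B6 i c : ℝ) * f c} =
        ⋂ i : Fin 7, {f | i < 6 → 0 < ∑ c, (B6 i c : ℝ) * f c} := by ext; simp
    rw [this]
    refine MeasurableSet.iInter fun i => ?_
    by_cases h : i < 6
    · simp only [h, true_implies]
      apply measurableSet_lt measurable_const
      fun_prop
    · simp [h]
  have e1 := gam_signed (Equiv.refl (Fin 8)) (fun _ => -1) (by simp) hpos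
  have e2 : {g : Fin 8 → ℝ | (fun i => (-1 : ℝ) * g ((Equiv.refl (Fin 8)) i)) ∈
      {f : Fin 8 → ℝ | ∀ i : Fin 7, i < 6 → 0 < ∑ c, (B6 i c : ℝ) * f c}} =
      {f | ∀ i : Fin 7, (6 < i → 0 < ∑ c, b6 i c * f c) ∧ (i < 6 → ∑ c, b6 i c * f c < 0)} := by
    ext f
    simp only [Set.mem_ofPred_eq, Equiv.refl_apply]
    refine forall_congr' fun i => ?_
    have h1 : ¬ (6 < i) := by
      rw [Fin.lt_def]; have := i.isLt; simp; omega
    simp only [h1, false_implies, true_and]
    refine imp_congr_right fun _ => ?_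
    have e3 : ∑ c, (B6 i c : ℝ) * (-1 * f c) = -∑ c, (B6 i c : ℝ) * f c := by
      rw [← Finset.sum_neg_distrib]
      exact Finset.sum_congr rfl fun c _ => by ring
    have e4 : ∑ c, b6 i c * f c = (∑ c, (B6 i c : ℝ) * f c) / 4 := by
      rw [Finset.sum_div]
      exact Finset.sum_congr rfl fun c _ => by unfold b6; ring
    rw [e3, e4]
    constructor
    · intro h; linarith
    · intro h; linarith
  rw [← e2, e1]
  -- the chamber
  have h1 := tile invE
  rw [muE_univ, univ_inter] at h1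
  have hCH : MeasurableSet CH := by
    have : CH = SA ∩ {x | 0 ≤ x 0 - x 1 - x 2 - x 3} := by ext; simp [CH]
    rw [this]
    refine measurableSet_SA.inter ?_
    apply measurableSet_le measurable_const
    fun_prop
  have h2 : muE CH = gam 8 {f : Fin 8 → ℝ | ∀ i : Fin 7, i < 6 → 0 < ∑ c, (B6 i c : ℝ) * f c} := by
    unfold muE
    rw [Measure.map_apply measurable_TTr hCH]
    apply measure_congr
    rw [Filter.eventuallyEq_set]
    filter_upwards [ae_ne b6 6 n6] with f hf
    have hf0 := hf 0 (by decide)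
    have e4 : ∑ c, b6 0 c * f c = (∑ c, (B6 0 c : ℝ) * f c) / 4 := by
      rw [Finset.sum_div]
      exact Finset.sum_congr rfl fun c _ => by unfold b6; ring
    rw [e4] at hf0
    have hf0' : ∑ c, (B6 0 c : ℝ) * f c ≠ 0 := by
      intro h; apply hf0; rw [h]; simp
    simp only [mem_preimage, Set.mem_ofPred_eq, CH, SA]
    simp_rw [← XX_TT] at hf0' ⊢
    set x := TTr.mulVec f
    have y0 : XX x 0 = x 0 - x 1 - x 2 - x 3 := by simp [XX, AN, Fin.sum_univ_succ]; ring
    have y1 : XX x 1 = x 1 - x 2 := by simp [XX, AN, Fin.sum_univ_succ]; ring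
    have y2 : XX x 2 = x 2 - x 3 := by simp [XX, AN, Fin.sum_univ_succ]; ring
    have y3 : XX x 3 = x 3 - x 4 := by simp [XX, AN, Fin.sum_univ_succ]; ring
    have y4 : XX x 4 = x 4 - x 5 := by simp [XX, AN, Fin.sum_univ_succ]; ring
    have y5 : XX x 5 = x 5 - x 6 := by simp [XX, AN, Fin.sum_univ_succ]; ring
    rw [Fin.strictAnti_iff_succ_lt]
    simp [Fin.forall_fin_succ]
    rw [y1, y2, y3, y4, y5]
    rw [y0] at hf0' ⊢
    have z0 : (0 : ℝ) ≤ x 0 - x 1 - x 2 - x 3 ↔ 0 < x 0 - x 1 - x 2 - x 3 :=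
      ⟨fun h => lt_of_le_of_ne h (Ne.symm hf0'), le_of_lt⟩
    constructor
    · rintro ⟨⟨a1, a2, a3, a4, a5⟩, a6⟩
      have := z0.1 (by linarith)
      refine ⟨?_, ?_, ?_, ?_, ?_, ?_⟩ <;> linarith
    · rintro ⟨a1, a2, a3, a4, a5, a6⟩
      refine ⟨⟨?_, ?_, ?_, ?_, ?_⟩, ?_⟩ <;> linarith
  rw [← h2]
  have h3 : (51840 : ENNReal) ≠ 0 := by norm_num
  have h4 : (51840 : ENNReal) ≠ ⊤ := by norm_num
  rw [ENNReal.ofReal_div_of_pos (by norm_num), ENNReal.ofReal_one]
  have h5 : ENNReal.ofReal 51840 = 51840 := by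
    rw [show (51840 : ℝ) = ((51840 : ℕ) : ℝ) by norm_num, ENNReal.ofReal_natCast]; norm_num
  rw [h5, ENNReal.eq_div_iff h3 h4]
  exact h1.symm

end Pool.Agent.W438.Vol
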