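import Mathlib

set_option autoImplicit false

open MeasureTheory ProbabilityTheory Set Filter Topology

namespace Pool.Agent.W438.Vol

/-- standard Gaussian measure on `ℝ^n` -/
noncomputable abbrev gam (n : ℕ) : Measure (Fin n → ℝ) := Measure.pi (fun _ => gaussianReal 0 1)

lemma charFunDual_gaussianReal (L : StrongDual ℝ ℝ) :
    charFunDual (gaussianReal 0 1) L = Complex.exp (-((L 1 ^ 2 : ℝ) : ℂ) / 2) := by
  have h : ∀ x : ℝ, L x = x * L 1 := by
    intro x
    have := L.map_smul x 1
    simpa using this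
  have h2 : charFunDual (gaussianReal 0 1) L = charFun (gaussianReal 0 1) (L 1) := by
    rw [charFunDual_apply, charFun_apply_real]
    refine integral_congr_ae (Filter.Eventually.of_forall fun x => ?_)
    simp only [h x]
    congr 1
    push_cast
    ring
  rw [h2, charFun_gaussianReal]
  congr 1
  push_cast
  ring

lemma charFunDual_gam (n : ℕ) (L : StrongDual ℝ (Fin n → ℝ)) :
    charFunDual (gam n) L = Complex.exp (-((∑ i, (L (Pi.single i 1)) ^ 2 : ℝ) : ℂ) / 2) := by
  classical
  rw [charFunDual_pi]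
  simp_rw [charFunDual_gaussianReal]
  rw [← Complex.exp_sum]
  congr 1
  simp only [ContinuousLinearMap.comp_apply, ContinuousLinearMap.single_apply]
  push_cast
  rw [← Finset.sum_div, Finset.sum_neg_distrib]

/-- **law of a linear image of a Gaussian vector only depends on the covariance** -/
lemma map_gam_eq {ι : Type*} [Fintype ι] {m n : ℕ} (A : Matrix ι (Fin m) ℝ) (B : Matrix ι (Fin n) ℝ)
    (h : ∀ i k, ∑ c, A i c * A k c = ∑ c, B i c * B k c) :
    (gam m).map (fun g => A.mulVec g) = (gam n).map (fun g => B.mulVec g) := by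
  classical
  have key : ∀ (l : ℕ) (M : Matrix ι (Fin l) ℝ) (L : StrongDual ℝ (ι → ℝ)),
      charFunDual ((gam l).map (fun g => M.mulVec g)) L =
        Complex.exp (-((∑ i, ∑ k, L (Pi.single i 1) * L (Pi.single k 1) * ∑ c, M i c * M k c : ℝ) : ℂ)
          / 2) := by
    intro l M L
    let T : (Fin l → ℝ) →L[ℝ] (ι → ℝ) := LinearMap.toContinuousLinearMap (Matrix.toLin' M)
    have hT : (fun g : Fin l → ℝ => M.mulVec g) = T := by
      funext g; simp [T]
    rw [hT, charFunDual_map, charFunDual_gam]
    congr 3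
    congr 1
    have hL : ∀ c, (L.comp T) (Pi.single c 1) = ∑ i, L (Pi.single i 1) * M i c := by
      intro c
      have h1 : T (Pi.single c 1) = ∑ i, M i c • (Pi.single i (1 : ℝ) : ι → ℝ) := by
        funext k
        simp [T, Matrix.toLin'_apply, Pi.single_apply]
      rw [ContinuousLinearMap.comp_apply, h1, map_sum]
      refine Finset.sum_congr rfl fun i _ => ?_
      rw [map_smul, smul_eq_mul, mul_comm]
    simp_rw [hL, sq, Finset.sum_mul_sum]
    rw [Finset.sum_comm]
    refine Finset.sum_congr rfl fun i _ => ?_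
    rw [Finset.sum_comm]
    refine Finset.sum_congr rfl fun k _ => ?_
    rw [Finset.mul_sum]
    refine Finset.sum_congr rfl fun c _ => ?_
    ring
  have hmA : Measurable (fun g : Fin m → ℝ => A.mulVec g) := by
    apply Continuous.measurable; fun_prop
  have hmB : Measurable (fun g : Fin n → ℝ => B.mulVec g) := by
    apply Continuous.measurable; fun_prop
  have := Measure.isProbabilityMeasure_map (μ := gam m) hmA.aemeasurable
  have := Measure.isProbabilityMeasure_map (μ := gam n) hmB.aemeasurable
  apply Measure.ext_of_charFunDual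
  funext L
  rw [key, key]
  simp_rw [h]

lemma gam_law {ι : Type*} [Fintype ι] {m n : ℕ} (A : Matrix ι (Fin m) ℝ) (B : Matrix ι (Fin n) ℝ)
    (h : ∀ i k, ∑ c, A i c * A k c = ∑ c, B i c * B k c) {E : Set (ι → ℝ)} (hE : MeasurableSet E) :
    gam m {g | A.mulVec g ∈ E} = gam n {g | B.mulVec g ∈ E} := by
  have hmA : Measurable (fun g : Fin m → ℝ => A.mulVec g) := by
    apply Continuous.measurable; fun_prop
  have hmB : Measurable (fun g : Fin n → ℝ => B.mulVec g) := by
    apply Continuous.measurable; fun_prop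
  have h1 := Measure.map_apply (μ := gam m) hmA hE
  have h2 := Measure.map_apply (μ := gam n) hmB hE
  rw [map_gam_eq A B h] at h1
  exact h1.symm.trans h2

/-- hyperplanes are null -/
lemma gam_null {n : ℕ} (v : Fin n → ℝ) (hv : v ≠ 0) (a : ℝ) : gam n {g | ∑ i, v i * g i = a} = 0 := by
  classical
  have hs : 0 < ∑ i, v i ^ 2 := by
    obtain ⟨i, hi⟩ := Function.ne_iff.1 hv
    refine Finset.sum_pos' (fun i _ => sq_nonneg _) ⟨i, Finset.mem_univ _, ?_⟩
    have : v i ≠ 0 := hi
    positivity
  set s : ℝ := Real.sqrt (∑ i, v i ^ 2) with hsdef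
  have hs0 : 0 < s := Real.sqrt_pos.2 hs
  have h := gam_law (ι := Unit) (m := n) (n := 1) (fun _ i => v i) (fun _ _ => s) (by
    intro i k
    simp only [Finset.univ_unique, Finset.sum_const, Finset.card_singleton, one_smul]
    rw [hsdef, Real.mul_self_sqrt hs.le]
    exact Finset.sum_congr rfl fun i _ => by ring) (E := {w | w () = a})
    (measurableSet_eq_fun (measurable_pi_apply _) measurable_const)
  have e1 : {g : Fin n → ℝ | ∑ i, v i * g i = a} =
      {g | (Matrix.mulVec (fun _ i => v i : Matrix Unit (Fin n) ℝ) g) ∈ {w : Unit → ℝ | w () = a}} := by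
    ext g; simp [Matrix.mulVec, dotProduct]
  have e2 : {g : Fin 1 → ℝ | (Matrix.mulVec (fun _ _ => s : Matrix Unit (Fin 1) ℝ) g) ∈
      {w : Unit → ℝ | w () = a}} = (fun g : Fin 1 → ℝ => g 0) ⁻¹' ({a / s} : Set ℝ) := by
    ext g
    simp only [Matrix.mulVec, dotProduct, Finset.univ_unique, Fin.default_eq_zero,
      Finset.sum_singleton, Set.mem_ofPred_eq, mem_preimage, mem_singleton_iff]
    rw [eq_div_iff hs0.ne', mul_comm]
  have h3 := (measurePreserving_eval (fun _ : Fin 1 => gaussianReal 0 1) 0).measure_preimage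
    (measurableSet_singleton (a / s)).nullMeasurableSet
  rw [e1, h, e2]
  refine Eq.trans h3 ?_
  have := nullSingletonClass_gaussianReal (μ := 0) (v := 1) one_ne_zero
  exact measure_singleton _

/-- splitting off the first coordinate -/
lemma gam_succ {n : ℕ} {S : Set (Fin (n + 1) → ℝ)} (hS : MeasurableSet S) :
    gam (n + 1) S = ∫⁻ z, gam n {f | Fin.cons z f ∈ S} ∂(gaussianReal 0 1) := by
  have h := (measurePreserving_piFinSuccAbove (fun _ : Fin (n + 1) => gaussianReal 0 1) 0).symm
  have h2 : MeasurableSet ((MeasurableEquiv.piFinSuccAbove (fun _ : Fin (n + 1) => ℝ) 0).symm ⁻¹' S) :=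
    (MeasurableEquiv.piFinSuccAbove (fun _ : Fin (n + 1) => ℝ) 0).symm.measurable hS
  rw [← h.measure_preimage hS.nullMeasurableSet, Measure.prod_apply h2]
  refine lintegral_congr fun z => ?_
  congr 1
  ext f
  have : (MeasurableEquiv.piFinSuccAbove (fun _ : Fin (n + 1) => ℝ) 0).symm (z, f) =
      (Fin.cons z f : Fin (n + 1) → ℝ) := by
    simp [MeasurableEquiv.piFinSuccAbove]
    rfl
  simp only [mem_preimage, Set.mem_ofPred_eq, this]

end Pool.Agent.W438.Vol
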