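import Pool.Agent.W438.Vol.Trans

set_option autoImplicit false

open MeasureTheory ProbabilityTheory Set Filter Topology

namespace Pool.Agent.W438.Vol

variable {n : ℕ} (b : Fin 7 → Fin n → ℝ) (o : Fin 7)

lemma measurableSet_pre (z : ℝ) :
    MeasurableSet {f : Fin n → ℝ | (fun i => (AN i 0 : ℝ) * z + ∑ c, b i c * f c) ∈ SP o} := by
  apply (measurableSet_SP o).preimage
  apply Continuous.measurable
  fun_prop

lemma measurable_FF : Measurable (FF b o) := by
  let S : Set (ℝ × (Fin n → ℝ)) := {x | (fun i => (AN i 0 : ℝ) * x.1 + ∑ c, b i c * x.2 c) ∈ SP o}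
  have hS : MeasurableSet S := by
    apply (measurableSet_SP o).preimage
    apply Continuous.measurable
    fun_prop
  exact measurable_measure_prodMk_left hS

lemma FF_le_one (z : ℝ) : FF b o z ≤ 1 := prob_le_one

lemma ae_ne (hb : ∀ i, i ≠ o → b i ≠ 0) : ∀ᵐ f ∂(gam n), ∀ i, i ≠ o → ∑ c, b i c * f c ≠ 0 := by
  rw [ae_all_iff]
  intro i
  by_cases hi : i = o
  · simp [hi]
  · rw [ae_iff]
    have := gam_null (b i) (hb i hi) 0
    simpa [hi] using this

/-- continuity at `0` -/
lemma tendsto_FF (hb : ∀ i, i ≠ o → b i ≠ 0) : Tendsto (FF b o) (𝓝 0) (𝓝 (FF b o 0)) := by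
  classical
  have e : ∀ z, FF b o z = ∫⁻ f, ({f : Fin n → ℝ | (fun i => (AN i 0 : ℝ) * z +
      ∑ c, b i c * f c) ∈ SP o}).indicator 1 f ∂(gam n) := by
    intro z
    rw [lintegral_indicator_one (measurableSet_pre b o z)]
    rfl
  suffices main : Tendsto (fun z : ℝ => ∫⁻ f, ({f : Fin n → ℝ | (fun i => (AN i 0 : ℝ) * z +
      ∑ c, b i c * f c) ∈ SP o}).indicator 1 f ∂(gam n)) (𝓝 0) (𝓝 (∫⁻ f,
        ({f : Fin n → ℝ | (fun i => (AN i 0 : ℝ) * 0 +
      ∑ c, b i c * f c) ∈ SP o}).indicator 1 f ∂(gam n))) by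
    rw [← e 0] at main
    exact main.congr fun z => (e z).symm
  refine tendsto_lintegral_filter_of_dominated_convergence (μ := gam n) (l := 𝓝 (0 : ℝ))
    (fun _ => 1) ?_ ?_ ?_ ?_
  · exact Eventually.of_forall fun z => measurable_one.indicator (measurableSet_pre b o z)
  · refine Eventually.of_forall fun z => Eventually.of_forall fun f => ?_
    exact Set.indicator_le_self' (by simp) f |>.trans (by simp)
  · simp
  · filter_upwards [ae_ne b o hb] with f hf
    have hev : ∀ᶠ z : ℝ in 𝓝 0, ((fun i => (AN i 0 : ℝ) * z + ∑ c, b i c * f c) ∈ SP o ↔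
        (fun i => (AN i 0 : ℝ) * 0 + ∑ c, b i c * f c) ∈ SP o) := by
      have h1 : ∀ᶠ z : ℝ in 𝓝 0, ∀ i : Fin 7, i ≠ o →
          ((0 ≤ (AN i 0 : ℝ) * z + ∑ c, b i c * f c) ↔ (0 ≤ ∑ c, b i c * f c)) := by
        rw [eventually_all]
        intro i
        by_cases hi : i = o
        · simp [hi]
        · have hc : Tendsto (fun z : ℝ => (AN i 0 : ℝ) * z + ∑ c, b i c * f c) (𝓝 0)
              (𝓝 (∑ c, b i c * f c)) := by
            have : Continuous (fun z : ℝ => (AN i 0 : ℝ) * z + ∑ c, b i c * f c) := by fun_prop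
            have h2 := this.tendsto 0
            simpa using h2
          rcases lt_or_gt_of_ne (hf i hi) with h | h
          · filter_upwards [hc.eventually (gt_mem_nhds h)] with z hz _
            constructor
            · intro h3; linarith
            · intro h3; linarith
          · filter_upwards [hc.eventually (lt_mem_nhds h)] with z hz _
            constructor
            · intro _; exact h.le
            · intro _; exact hz.le
      filter_upwards [h1] with z hz
      simp only [SP, Set.mem_ofPred_eq, mul_zero, zero_add]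
      refine forall_congr' fun i => ?_
      by_cases hi : i = o
      · simp [hi]
      · have h3 := hz i hi
        have h4 := not_congr h3
        rw [not_le, not_le] at h4
        rw [h3, h4]
    refine Tendsto.congr' ?_ tendsto_const_nhds
    filter_upwards [hev] with z hz
    simp only [Set.indicator, Set.mem_ofPred_eq, hz]

/-- the value at `0` with strict inequalities -/
lemma FF_zero (hb : ∀ i, i ≠ o → b i ≠ 0) : FF b o 0 =
    gam n {f | ∀ i, (o < i → 0 < ∑ c, b i c * f c) ∧ (i < o → ∑ c, b i c * f c < 0)} := by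
  unfold FF
  apply measure_congr
  rw [Filter.eventuallyEq_set]
  filter_upwards [ae_ne b o hb] with f hf
  simp only [SP, Set.mem_ofPred_eq, mul_zero, zero_add]
  refine forall_congr' fun i => ?_
  by_cases hi : i = o
  · simp [hi]
  · have := hf i hi
    refine and_congr (imp_congr_right fun _ => ?_) Iff.rfl
    exact ⟨fun h => lt_of_le_of_ne h (Ne.symm this), le_of_lt⟩

/-- `PP` as a one dimensional integral -/
lemma PP_eq (h : ∀ i k, i ≠ o → k ≠ o → ∑ c, b i c * b k c =
      ∑ c : Fin 6, (AN i c.succ : ℝ) * AN k c.succ - (AN i 0 : ℝ) * AN k 0)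
    (p : ℝ) (hp0 : 0 < p) (hp1 : p < 1) :
    (PP o p).toReal = Real.sqrt p * ((Real.sqrt (2 * Real.pi))⁻¹ *
      ∫ z, (FF b o z).toReal * Real.exp (-(p * z ^ 2 / 2))) := by
  have hsp : 0 < Real.sqrt p := Real.sqrt_pos.2 hp0
  rw [transfer b o h p hp0 hp1, ← integral_toReal]
  · rw [integral_gaussianReal_eq_integral_smul one_ne_zero]
    have e1 : ∀ x : ℝ, gaussianPDFReal 0 1 x • (FF b o (x / Real.sqrt p)).toReal =
        (fun y => (Real.sqrt (2 * Real.pi))⁻¹ * ((FF b o y).toReal * Real.exp (-(p * y ^ 2 / 2))))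
          (x / Real.sqrt p) := by
      intro x
      simp only [gaussianPDFReal, smul_eq_mul, NNReal.coe_one, mul_one, sub_zero, div_pow,
        Real.sq_sqrt hp0.le]
      rw [show -x ^ 2 / 2 = -(p * (x ^ 2 / p) / 2) by field_simp]
      ring
    simp_rw [e1]
    rw [Measure.integral_comp_div (fun y => (Real.sqrt (2 * Real.pi))⁻¹ *
      ((FF b o y).toReal * Real.exp (-(p * y ^ 2 / 2)))), abs_of_pos hsp, smul_eq_mul,
      integral_const_mul]
  · exact ((measurable_FF b o).comp (measurable_id.div_const _)).aemeasurable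
  · exact Eventually.of_forall fun z => (FF_le_one b o _).trans_lt ENNReal.one_lt_top

end Pool.Agent.W438.Vol
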