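import Pool.Agent.W438.Vol.Ana

set_option autoImplicit false

open MeasureTheory ProbabilityTheory Set Filter Topology

namespace Pool.Agent.W438.Vol

lemma XX0 (x : Fin 7 → ℝ) : XX x 0 = x 0 - x 1 - x 2 - x 3 := by
  simp [XX, AN, Fin.sum_univ_succ]; ring
lemma XX1 (x : Fin 7 → ℝ) : XX x 1 = x 1 - x 2 := by simp [XX, AN, Fin.sum_univ_succ]; ring
lemma XX2 (x : Fin 7 → ℝ) : XX x 2 = x 2 - x 3 := by simp [XX, AN, Fin.sum_univ_succ]; ring
lemma XX3 (x : Fin 7 → ℝ) : XX x 3 = x 3 - x 4 := by simp [XX, AN, Fin.sum_univ_succ]; ring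
lemma XX4 (x : Fin 7 → ℝ) : XX x 4 = x 4 - x 5 := by simp [XX, AN, Fin.sum_univ_succ]; ring
lemma XX5 (x : Fin 7 → ℝ) : XX x 5 = x 5 - x 6 := by simp [XX, AN, Fin.sum_univ_succ]; ring
lemma XX6 (x : Fin 7 → ℝ) : XX x 6 = x 6 := by simp [XX, AN, Fin.sum_univ_succ]

/-- sum of squares of the last six coordinates -/
noncomputable def sy (x : Fin 7 → ℝ) : ℝ := ∑ k : Fin 6, x k.succ ^ 2

lemma sy_eq (x : Fin 7 → ℝ) : sy x = x 1 ^ 2 + x 2 ^ 2 + x 3 ^ 2 + x 4 ^ 2 + x 5 ^ 2 + x 6 ^ 2 := by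
  simp [sy, Fin.sum_univ_succ]; ring

lemma CD_iff (x : Fin 7 → ℝ) : x ∈ CD ↔ (0 ≤ x 0 - x 1 - x 2 - x 3 ∧ 0 ≤ x 1 - x 2 ∧ 0 ≤ x 2 - x 3 ∧
    0 ≤ x 3 - x 4 ∧ 0 ≤ x 4 - x 5 ∧ 0 ≤ x 5 - x 6 ∧ 0 ≤ x 6) := by
  rw [← XX0, ← XX1, ← XX2, ← XX3, ← XX4, ← XX5]
  conv_rhs => rw [← XX6 x]
  simp only [CD, Set.mem_ofPred_eq]
  constructor
  · intro h; exact ⟨h 0, h 1, h 2, h 3, h 4, h 5, h 6⟩
  · rintro ⟨h0, h1, h2, h3, h4, h5, h6⟩ i
    match i with
    | 0 => exact h0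
    | 1 => exact h1
    | 2 => exact h2
    | 3 => exact h3
    | 4 => exact h4
    | 5 => exact h5
    | 6 => exact h6

lemma CD_q (x : Fin 7 → ℝ) (hx : x ∈ CD) : sy x + 2 * x 2 ^ 2 ≤ x 0 ^ 2 := by
  rw [CD_iff] at hx
  obtain ⟨h0, h1, h2, h3, h4, h5, h6⟩ := hx
  rw [sy_eq]
  have a6 : 0 ≤ x 6 := h6
  have a5 : x 6 ≤ x 5 := by linarith
  have a4 : x 5 ≤ x 4 := by linarith
  have a3 : x 4 ≤ x 3 := by linarith
  have a2 : x 3 ≤ x 2 := by linarith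
  have a1 : x 2 ≤ x 1 := by linarith
  have b5 : 0 ≤ x 5 := by linarith
  have b4 : 0 ≤ x 4 := by linarith
  have b3 : 0 ≤ x 3 := by linarith
  have b2 : 0 ≤ x 2 := by linarith
  have b1 : 0 ≤ x 1 := by linarith
  have c6 : x 6 ^ 2 ≤ x 3 ^ 2 := by apply pow_le_pow_left₀ a6; linarith
  have c5 : x 5 ^ 2 ≤ x 3 ^ 2 := by apply pow_le_pow_left₀ b5; linarith
  have c4 : x 4 ^ 2 ≤ x 3 ^ 2 := by apply pow_le_pow_left₀ b4; linarith
  have hs : (x 1 + x 2 + x 3) ^ 2 ≤ x 0 ^ 2 := by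
    apply pow_le_pow_left₀ (by linarith); linarith
  have d1 : x 2 * x 2 ≤ x 1 * x 2 := by nlinarith
  have d2 : x 3 * x 3 ≤ x 1 * x 3 := by nlinarith
  have d3 : x 3 * x 3 ≤ x 2 * x 3 := by nlinarith
  nlinarith

lemma CD_x0 (x : Fin 7 → ℝ) (hx : x ∈ CD) : 0 ≤ x 0 := by
  rw [CD_iff] at hx
  obtain ⟨h0, h1, h2, h3, h4, h5, h6⟩ := hx
  linarith

/-- half of the Lorentzian square -/
noncomputable def rr (x : Fin 7 → ℝ) : ℝ := (x 0 ^ 2 - sy x) / 2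

lemma CD_rr (x : Fin 7 → ℝ) (hx : x ∈ CD) : 0 ≤ rr x := by
  have := CD_q x hx
  unfold rr
  nlinarith [sq_nonneg (x 2)]

lemma Qf_eq (p : ℝ) (x : Fin 7 → ℝ) : Qf p x / 2 = sy x / 2 + p * rr x := by
  unfold Qf rr sy
  ring

lemma sy_nonneg (x : Fin 7 → ℝ) : 0 ≤ sy x := Finset.sum_nonneg fun _ _ => sq_nonneg _

lemma measurable_sy : Measurable sy := by unfold sy; fun_prop

lemma measurable_rr : Measurable rr := by
  unfold rr
  have := measurable_sy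
  fun_prop

lemma integrable_gauss7 (a : ℝ) (ha : 0 < a) :
    Integrable (fun x : Fin 7 → ℝ => Real.exp (-(a * ∑ i, x i ^ 2))) := by
  have h : Integrable (fun x : Fin 7 → ℝ => ∏ i, Real.exp (-a * x i ^ 2)) :=
    Integrable.fintype_prod (fun _ => integrable_exp_neg_mul_sq ha)
  refine h.congr (Eventually.of_forall fun x => ?_)
  simp only
  rw [← Real.exp_sum]
  congr 1
  rw [Finset.mul_sum, ← Finset.sum_neg_distrib]
  exact Finset.sum_congr rfl fun i _ => by ring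

lemma integrable_K (ε : ℝ) (hε : 0 < ε) :
    Integrable (fun x : Fin 7 → ℝ => Real.exp (-(sy x / 2)) * Real.exp (-(ε * rr x)))
      (volume.restrict CD) := by
  set m : ℝ := min 1 ε with hm
  have hm0 : 0 < m := lt_min one_pos hε
  have hm1 : m ≤ 1 := min_le_left _ _
  have hm2 : m ≤ ε := min_le_right _ _
  refine Integrable.mono' ((integrable_gauss7 (m / 14) (by positivity)).restrict) ?_ ?_
  · apply Measurable.aestronglyMeasurable
    have := measurable_sy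
    have := measurable_rr
    fun_prop
  · rw [ae_restrict_iff' measurableSet_CD]
    refine Eventually.of_forall fun x hx => ?_
    rw [← Real.exp_add, Real.norm_eq_abs, abs_of_pos (Real.exp_pos _)]
    apply Real.exp_le_exp.2
    have h1 := CD_rr x hx
    have h2 := CD_q x hx
    have h3 := sy_nonneg x
    have hsum : ∑ i, x i ^ 2 = x 0 ^ 2 + sy x := by
      rw [Fin.sum_univ_succ]; rfl
    rw [hsum]
    have h4 : sy x ≤ x 0 ^ 2 := by nlinarith [sq_nonneg (x 2)]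
    have h5 : m * rr x ≤ ε * rr x := mul_le_mul_of_nonneg_right hm2 h1
    have h6 : m * (sy x / 2) ≤ sy x / 2 := by nlinarith
    have h7 : m * (sy x / 2) + m * rr x = m * x 0 ^ 2 / 2 := by unfold rr; ring
    have h8 : m / 14 * (x 0 ^ 2 + sy x) ≤ m * x 0 ^ 2 / 2 := by
      have : m * sy x ≤ m * x 0 ^ 2 := mul_le_mul_of_nonneg_left h4 hm0.le
      nlinarith [mul_nonneg hm0.le (sq_nonneg (x 0))]
    linarith

/-- the cone integral -/
noncomputable def KK (p : ℝ) : ℝ := ∫ x in CD, Real.exp (-(sy x / 2)) * Real.exp (-(p * rr x))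

lemma KK_lintegral (p : ℝ) (hp : 0 < p) :
    ENNReal.ofReal (KK p) = ∫⁻ x in CD, ENNReal.ofReal (Real.exp (-(Qf p x / 2))) := by
  unfold KK
  rw [ofReal_integral_eq_lintegral_ofReal (integrable_K p hp)
    (Eventually.of_forall fun x => by positivity)]
  refine lintegral_congr fun x => ?_
  rw [← Real.exp_add, Qf_eq]
  congr 2
  ring

lemma KK_nonneg (p : ℝ) : 0 ≤ KK p := integral_nonneg fun x => by positivity

lemma t0_KK (p : ℝ) (hp0 : 0 < p) (hp1 : p < 1) :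
    (gam 7 (VV p ⁻¹' TP 0)).toReal = cst p * KK p := by
  have hq : 0 < 1 - p := by linarith
  have hc : 0 ≤ cst p := by unfold cst; positivity
  rw [t0_eq p hp0 hp1]
  simp_rw [ENNReal.ofReal_mul hc]
  rw [lintegral_const_mul' _ _ ENNReal.ofReal_ne_top, ← KK_lintegral p hp0,
    ← ENNReal.ofReal_mul hc, ENNReal.toReal_ofReal (mul_nonneg hc (KK_nonneg p))]

end Pool.Agent.W438.Vol
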