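import Pool.Agent.W438.Vol.Main1

set_option autoImplicit false

open MeasureTheory ProbabilityTheory Set Filter Topology

namespace Pool.Agent.W438.Vol

noncomputable def HH (z : ℝ) : ℝ :=
  (FF (toR B0) 0 z).toReal - (FF (toR B1) 1 z).toReal + (FF (toR B2) 2 z).toReal -
  (FF (toR B3) 3 z).toReal + (FF (toR B4) 4 z).toReal - (FF (toR B5) 5 z).toReal +
  (FF b6 6 z).toReal

lemma FF_int {n : ℕ} (b : Fin 7 → Fin n → ℝ) (o : Fin 7) (p : ℝ) (hp : 0 < p) :
    Integrable (fun z => (FF b o z).toReal * Real.exp (-(p * (z ^ 2 / 2)))) := by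
  have h1 : Integrable (fun z : ℝ => Real.exp (-(p / 2) * z ^ 2)) :=
    integrable_exp_neg_mul_sq (by positivity)
  refine Integrable.mono' h1 ?_ ?_
  · apply Measurable.aestronglyMeasurable
    have := (measurable_FF b o).ennreal_toReal
    fun_prop
  · refine Eventually.of_forall fun z => ?_
    rw [norm_mul, Real.norm_eq_abs, Real.norm_eq_abs, abs_of_pos (Real.exp_pos _),
      abs_of_nonneg ENNReal.toReal_nonneg]
    have h2 : (FF b o z).toReal ≤ 1 := by
      have := ENNReal.toReal_mono ENNReal.one_ne_top (FF_le_one b o z)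
      simpa using this
    have h3 : Real.exp (-(p * (z ^ 2 / 2))) = Real.exp (-(p / 2) * z ^ 2) := by congr 1; ring
    rw [h3]
    have := Real.exp_pos (-(p / 2) * z ^ 2)
    nlinarith

lemma HH_int (p : ℝ) (hp : 0 < p) :
    Integrable (fun z => HH z * Real.exp (-(p * (z ^ 2 / 2)))) := by
  have := ((((((FF_int (toR B0) 0 p hp).sub (FF_int (toR B1) 1 p hp)).add
    (FF_int (toR B2) 2 p hp)).sub (FF_int (toR B3) 3 p hp)).add (FF_int (toR B4) 4 p hp)).sub
    (FF_int (toR B5) 5 p hp)).add (FF_int b6 6 p hp)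
  refine this.congr (Eventually.of_forall fun z => ?_)
  simp only [HH, Pi.add_apply, Pi.sub_apply]
  ring

lemma seven {f0 f1 f2 f3 f4 f5 f6 : ℝ → ℝ} (i0 : Integrable f0) (i1 : Integrable f1)
    (i2 : Integrable f2) (i3 : Integrable f3) (i4 : Integrable f4) (i5 : Integrable f5)
    (i6 : Integrable f6) :
    ∫ z, (f0 z - f1 z + f2 z - f3 z + f4 z - f5 z + f6 z) =
      (∫ z, f0 z) - (∫ z, f1 z) + (∫ z, f2 z) - (∫ z, f3 z) + (∫ z, f4 z) - (∫ z, f5 z) +
        ∫ z, f6 z := by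
  have a1 : Integrable (fun z => f0 z - f1 z) := i0.sub i1
  have a2 : Integrable (fun z => f0 z - f1 z + f2 z) := a1.add i2
  have a3 : Integrable (fun z => f0 z - f1 z + f2 z - f3 z) := a2.sub i3
  have a4 : Integrable (fun z => f0 z - f1 z + f2 z - f3 z + f4 z) := a3.add i4
  have a5 : Integrable (fun z => f0 z - f1 z + f2 z - f3 z + f4 z - f5 z) := a4.sub i5
  rw [integral_add a5 i6, integral_sub a4 i5, integral_add a3 i4, integral_sub a2 i3,
    integral_add a1 i2, integral_sub i0 i1]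

lemma HH_integral (p : ℝ) (hp : 0 < p) :
    ∫ z, HH z * Real.exp (-(p * (z ^ 2 / 2))) =
      (∫ z, (FF (toR B0) 0 z).toReal * Real.exp (-(p * (z ^ 2 / 2)))) -
      (∫ z, (FF (toR B1) 1 z).toReal * Real.exp (-(p * (z ^ 2 / 2)))) +
      (∫ z, (FF (toR B2) 2 z).toReal * Real.exp (-(p * (z ^ 2 / 2)))) -
      (∫ z, (FF (toR B3) 3 z).toReal * Real.exp (-(p * (z ^ 2 / 2)))) +
      (∫ z, (FF (toR B4) 4 z).toReal * Real.exp (-(p * (z ^ 2 / 2)))) -
      (∫ z, (FF (toR B5) 5 z).toReal * Real.exp (-(p * (z ^ 2 / 2)))) +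
      (∫ z, (FF b6 6 z).toReal * Real.exp (-(p * (z ^ 2 / 2)))) := by
  have := seven (FF_int (toR B0) 0 p hp) (FF_int (toR B1) 1 p hp) (FF_int (toR B2) 2 p hp)
    (FF_int (toR B3) 3 p hp) (FF_int (toR B4) 4 p hp) (FF_int (toR B5) 5 p hp) (FF_int b6 6 p hp)
  rw [← this]
  refine integral_congr_ae (Eventually.of_forall fun z => ?_)
  simp only [HH]
  ring

lemma ident_small (p : ℝ) (hp0 : 0 < p) (hp1 : p < 1) :
    2 * ((Real.sqrt (2 * Real.pi))⁻¹) ^ 6 * (1 - p) ^ 3 * KK p =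
      ∫ z, HH z * Real.exp (-(p * (z ^ 2 / 2))) := by
  have h := two_t0 p hp0 hp1
  rw [t0_KK p hp0 hp1] at h
  have e0 := PP_eq (toR B0) 0 (gram_real g0) p hp0 hp1
  have e1 := PP_eq (toR B1) 1 (gram_real g1) p hp0 hp1
  have e2 := PP_eq (toR B2) 2 (gram_real g2) p hp0 hp1
  have e3 := PP_eq (toR B3) 3 (gram_real g3) p hp0 hp1
  have e4 := PP_eq (toR B4) 4 (gram_real g4) p hp0 hp1
  have e5 := PP_eq (toR B5) 5 (gram_real g5) p hp0 hp1
  have e6 := PP_eq b6 6 g6 p hp0 hp1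
  have hsum : ∑ o : Fin 7, (-1 : ℝ) ^ o.val * (PP o p).toReal =
      (PP 0 p).toReal - (PP 1 p).toReal + (PP 2 p).toReal - (PP 3 p).toReal + (PP 4 p).toReal -
      (PP 5 p).toReal + (PP 6 p).toReal := by
    simp [Fin.sum_univ_succ]
    ring
  rw [hsum, e0, e1, e2, e3, e4, e5, e6] at h
  rw [HH_integral p hp0]
  have hre : ∀ z : ℝ, p * (z ^ 2 / 2) = p * z ^ 2 / 2 := fun z => by ring
  simp_rw [hre]
  have hs2 : (Real.sqrt (2 * Real.pi)) ≠ 0 := by positivity
  have hsp : Real.sqrt p ≠ 0 := (Real.sqrt_pos.2 hp0).ne'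
  have hf : Real.sqrt p * (Real.sqrt (2 * Real.pi))⁻¹ ≠ 0 := mul_ne_zero hsp (inv_ne_zero hs2)
  apply mul_left_cancel₀ hf
  unfold cst at h
  linear_combination h

/-- the identity on the whole half line -/
lemma ident (p : ℝ) (hp0 : 0 < p) :
    2 * ((Real.sqrt (2 * Real.pi))⁻¹) ^ 6 * (1 - p) ^ 3 * KK p =
      ∫ z, HH z * Real.exp (-(p * (z ^ 2 / 2))) := by
  have hmeasH : Measurable HH := by
    unfold HH
    have m0 := (measurable_FF (toR B0) 0).ennreal_toReal
    have m1 := (measurable_FF (toR B1) 1).ennreal_toReal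
    have m2 := (measurable_FF (toR B2) 2).ennreal_toReal
    have m3 := (measurable_FF (toR B3) 3).ennreal_toReal
    have m4 := (measurable_FF (toR B4) 4).ennreal_toReal
    have m5 := (measurable_FF (toR B5) 5).ennreal_toReal
    have m6 := (measurable_FF b6 6).ennreal_toReal
    exact (((((m0.sub m1).add m2).sub m3).add m4).sub m5).add m6
  have hf1 := laplace_diff (volume.restrict CD) (fun x => Real.exp (-(sy x / 2))) rr
    (by have := measurable_sy; fun_prop) measurable_rr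
    (by rw [ae_restrict_iff' measurableSet_CD]; exact Eventually.of_forall CD_rr) integrable_K
  have hg := laplace_diff (volume : Measure ℝ) HH (fun z => z ^ 2 / 2) hmeasH (by fun_prop)
    (Eventually.of_forall fun z => by positivity) HH_int
  have hf : DifferentiableOn ℂ (fun p : ℂ => (2 * ((Real.sqrt (2 * Real.pi) : ℂ)⁻¹) ^ 6 * (1 - p) ^ 3) *
      ∫ x in CD, ((Real.exp (-(sy x / 2)) : ℝ) : ℂ) * Complex.exp (-(p * rr x))) {p | 0 < p.re} := by
    apply DifferentiableOn.mul _ hf1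
    fun_prop
  have c1 : ∀ p : ℝ, (∫ x in CD, ((Real.exp (-(sy x / 2)) : ℝ) : ℂ) * Complex.exp (-((p : ℂ) * rr x))) =
      ((KK p : ℝ) : ℂ) := by
    intro p
    unfold KK
    rw [← integral_complex_ofReal]
    refine integral_congr_ae (Eventually.of_forall fun x => ?_)
    push_cast
    rfl
  have c2 : ∀ p : ℝ, (∫ z, ((HH z : ℝ) : ℂ) * Complex.exp (-((p : ℂ) * ((z ^ 2 / 2 : ℝ) : ℂ)))) =
      ((∫ z, HH z * Real.exp (-(p * (z ^ 2 / 2))) : ℝ) : ℂ) := by
    intro p
    rw [← integral_complex_ofReal]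
    refine integral_congr_ae (Eventually.of_forall fun x => ?_)
    push_cast
    rfl
  have key := halfplane_eq hf hg (by
    intro p h0 h1
    rw [c1, c2, ← ident_small p h0 h1]
    push_cast
    rfl) (p : ℂ) (by simpa using hp0)
  rw [c1, c2] at key
  exact_mod_cast key

end Pool.Agent.W438.Vol
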