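import Pool.Agent.W438.Vol.Main2

set_option autoImplicit false

open MeasureTheory ProbabilityTheory Set Filter Topology

namespace Pool.Agent.W438.Vol

lemma HH_zero : HH 0 = -(1 / 414720) := by
  unfold HH
  rw [v0, v1, v2, v3, v4, v5, v6]
  rw [ENNReal.toReal_ofReal (by norm_num), ENNReal.toReal_ofReal (by norm_num),
    ENNReal.toReal_ofReal (by norm_num), ENNReal.toReal_ofReal (by norm_num),
    ENNReal.toReal_ofReal (by norm_num), ENNReal.toReal_ofReal (by norm_num)]
  norm_num

lemma FF_real_tendsto {n : ℕ} (b : Fin 7 → Fin n → ℝ) (o : Fin 7) (hb : ∀ i, i ≠ o → b i ≠ 0) :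
    Tendsto (fun z => (FF b o z).toReal) (𝓝 0) (𝓝 (FF b o 0).toReal) :=
  (ENNReal.tendsto_toReal (ne_top_of_le_ne_top ENNReal.one_ne_top (FF_le_one b o 0))).comp
    (tendsto_FF b o hb)

lemma HH_tendsto : Tendsto HH (𝓝 0) (𝓝 (HH 0)) := by
  unfold HH
  exact ((((((FF_real_tendsto _ _ (nz_real n0)).sub (FF_real_tendsto _ _ (nz_real n1))).add
    (FF_real_tendsto _ _ (nz_real n2))).sub (FF_real_tendsto _ _ (nz_real n3))).add
    (FF_real_tendsto _ _ (nz_real n4))).sub (FF_real_tendsto _ _ (nz_real n5))).add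
    (FF_real_tendsto _ _ n6)

lemma FF_real_bd {n : ℕ} (b : Fin 7 → Fin n → ℝ) (o : Fin 7) (z : ℝ) :
    0 ≤ (FF b o z).toReal ∧ (FF b o z).toReal ≤ 1 := by
  refine ⟨ENNReal.toReal_nonneg, ?_⟩
  have := ENNReal.toReal_mono ENNReal.one_ne_top (FF_le_one b o z)
  simpa using this

lemma HH_bd (z : ℝ) : |HH z| ≤ 7 := by
  have a0 := FF_real_bd (toR B0) 0 z
  have a1 := FF_real_bd (toR B1) 1 z
  have a2 := FF_real_bd (toR B2) 2 z
  have a3 := FF_real_bd (toR B3) 3 z
  have a4 := FF_real_bd (toR B4) 4 z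
  have a5 := FF_real_bd (toR B5) 5 z
  have a6 := FF_real_bd b6 6 z
  unfold HH
  rw [abs_le]
  constructor <;> linarith [a0.1, a0.2, a1.1, a1.2, a2.1, a2.2, a3.1, a3.2, a4.1, a4.2, a5.1, a5.2,
    a6.1, a6.2]

lemma measurable_HH : Measurable HH := by
  unfold HH
  have m0 := (measurable_FF (toR B0) 0).ennreal_toReal
  have m1 := (measurable_FF (toR B1) 1).ennreal_toReal
  have m2 := (measurable_FF (toR B2) 2).ennreal_toReal
  have m3 := (measurable_FF (toR B3) 3).ennreal_toReal
  have m4 := (measurable_FF (toR B4) 4).ennreal_toReal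
  have m5 := (measurable_FF (toR B5) 5).ennreal_toReal
  have m6 := (measurable_FF b6 6).ennreal_toReal
  exact (((((m0.sub m1).add m2).sub m3).add m4).sub m5).add m6

/-- `p = n + 2` -/
noncomputable def pn (n : ℕ) : ℝ := (n : ℝ) + 2

lemma pn_pos (n : ℕ) : 0 < pn n := by unfold pn; positivity

lemma pn_gt (n : ℕ) : 1 < pn n := by
  unfold pn
  have : (0 : ℝ) ≤ n := Nat.cast_nonneg n
  linarith

lemma pn_tendsto : Tendsto pn atTop atTop :=
  tendsto_atTop_add_const_right _ _ tendsto_natCast_atTop_atTop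

lemma lim_RHS : Tendsto (fun n : ℕ => Real.sqrt (pn n) *
    ∫ z, HH z * Real.exp (-(pn n * (z ^ 2 / 2)))) atTop
    (𝓝 (Real.sqrt (2 * Real.pi) * -(1 / 414720))) := by
  have e1 : ∀ n, Real.sqrt (pn n) * ∫ z, HH z * Real.exp (-(pn n * (z ^ 2 / 2))) =
      ∫ x, HH (x / Real.sqrt (pn n)) * Real.exp (-(x ^ 2 / 2)) := by
    intro n
    have hp := pn_pos n
    have hs : 0 < Real.sqrt (pn n) := Real.sqrt_pos.2 hp
    have h := Measure.integral_comp_div (fun z => HH z * Real.exp (-(pn n * (z ^ 2 / 2))))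
      (Real.sqrt (pn n))
    rw [abs_of_pos hs, smul_eq_mul] at h
    rw [← h]
    refine integral_congr_ae (Eventually.of_forall fun x => ?_)
    simp only [div_pow, Real.sq_sqrt hp.le]
    congr 2
    field_simp
  simp_rw [e1]
  have e2 : ∫ x : ℝ, HH 0 * Real.exp (-(x ^ 2 / 2)) = Real.sqrt (2 * Real.pi) * -(1 / 414720) := by
    rw [integral_const_mul, HH_zero]
    have := integral_gaussian (1 / 2)
    have h3 : ∀ x : ℝ, Real.exp (-(x ^ 2 / 2)) = Real.exp (-(1 / 2) * x ^ 2) := by
      intro x; congr 1; ring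
    simp_rw [h3]
    rw [this, show Real.pi / (1 / 2) = 2 * Real.pi by ring]
    ring
  rw [← e2]
  have hint : Integrable (fun x : ℝ => 7 * Real.exp (-(1 / 2) * x ^ 2)) :=
    (integrable_exp_neg_mul_sq (by norm_num)).const_mul 7
  refine tendsto_integral_of_dominated_convergence (fun x : ℝ => 7 * Real.exp (-(1 / 2) * x ^ 2))
    ?_ hint ?_ ?_
  · intro n
    apply Measurable.aestronglyMeasurable
    have := measurable_HH.comp (measurable_id.div_const (Real.sqrt (pn n)))
    exact this.mul (by fun_prop)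
  · intro n
    refine Eventually.of_forall fun x => ?_
    rw [norm_mul, Real.norm_eq_abs, Real.norm_eq_abs, abs_of_pos (Real.exp_pos _)]
    have h3 : Real.exp (-(x ^ 2 / 2)) = Real.exp (-(1 / 2) * x ^ 2) := by congr 1; ring
    rw [h3]
    gcongr
    exact HH_bd _
  · refine Eventually.of_forall fun x => ?_
    apply Tendsto.mul_const
    apply HH_tendsto.comp
    have h4 : Tendsto (fun n => Real.sqrt (pn n)) atTop atTop :=
      Real.tendsto_sqrt_atTop.comp pn_tendsto
    have h5 := h4.inv_tendsto_atTop.const_mul x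
    rw [mul_zero] at h5
    refine h5.congr fun n => ?_
    simp [div_eq_mul_inv]

/-- scaling -/
lemma scale7 (c : ℝ) (hc : 0 < c) (f : (Fin 7 → ℝ) → ENNReal) (hf : Measurable f) :
    ∫⁻ x, f (c • x) = ENNReal.ofReal ((c ^ 7)⁻¹) * ∫⁻ x, f x := by
  have h := Measure.map_addHaar_smul (volume : Measure (Fin 7 → ℝ)) hc.ne'
  have hm : Measurable (fun x : Fin 7 → ℝ => c • x) := measurable_const_smul c
  rw [← lintegral_map hf hm, h, lintegral_smul_measure, smul_eq_mul, Module.finrank_fin_fun,
    abs_of_pos (by positivity)]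

lemma CD_smul (c : ℝ) (hc : 0 < c) (x : Fin 7 → ℝ) : c • x ∈ CD ↔ x ∈ CD := by
  simp only [CD, Set.mem_ofPred_eq]
  refine forall_congr' fun i => ?_
  have : XX (c • x) i = c * XX x i := by
    unfold XX
    rw [Finset.mul_sum]
    refine Finset.sum_congr rfl fun k _ => ?_
    simp only [Pi.smul_apply, smul_eq_mul]
    ring
  rw [this, mul_nonneg_iff_of_pos_left hc]

lemma scaled_K (p : ℝ) (hp : 0 < p) : ENNReal.ofReal (Real.sqrt p ^ 7 * KK p) =
    ∫⁻ x in CD, ENNReal.ofReal (Real.exp (-(sy x / (2 * p) + rr x))) := by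
  have hs : 0 < Real.sqrt p := Real.sqrt_pos.2 hp
  have hm : Measurable (CD.indicator fun x => ENNReal.ofReal (Real.exp (-(Qf p x / 2)))) := by
    apply Measurable.indicator _ measurableSet_CD
    unfold Qf
    fun_prop
  have h := scale7 (1 / Real.sqrt p) (by positivity)
    (CD.indicator fun x => ENNReal.ofReal (Real.exp (-(Qf p x / 2)))) hm
  rw [lintegral_indicator measurableSet_CD, ← KK_lintegral p hp] at h
  have e : ∀ x, (CD.indicator fun x => ENNReal.ofReal (Real.exp (-(Qf p x / 2)))) ((1 / Real.sqrt p) • x)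
      = CD.indicator (fun x => ENNReal.ofReal (Real.exp (-(sy x / (2 * p) + rr x)))) x := by
    intro x
    by_cases hx : x ∈ CD
    · rw [Set.indicator_of_mem ((CD_smul _ (by positivity) x).2 hx), Set.indicator_of_mem hx]
      congr 3
      have h1 : sy ((1 / Real.sqrt p) • x) = sy x / p := by
        unfold sy
        rw [Finset.sum_div]
        refine Finset.sum_congr rfl fun k _ => ?_
        simp only [Pi.smul_apply, smul_eq_mul]
        rw [mul_pow, div_pow, Real.sq_sqrt hp.le]
        ring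
      have h2 : ((1 / Real.sqrt p) • x) 0 ^ 2 = x 0 ^ 2 / p := by
        simp only [Pi.smul_apply, smul_eq_mul]
        rw [mul_pow, div_pow, Real.sq_sqrt hp.le]
        ring
      rw [Qf_eq]
      unfold rr
      rw [h1, h2]
      field_simp
    · rw [Set.indicator_of_notMem (fun h => hx ((CD_smul _ (by positivity) x).1 h)),
        Set.indicator_of_notMem hx]
  simp_rw [e] at h
  rw [lintegral_indicator measurableSet_CD] at h
  rw [h, ← ENNReal.ofReal_mul (by positivity)]
  congr 1
  rw [one_div, inv_pow, inv_inv]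

/-- the Lorentzian cone integral over the simplex -/
noncomputable def MM : ENNReal := ∫⁻ x in CD, ENNReal.ofReal (Real.exp (-(rr x)))

lemma lim_MM : Tendsto (fun n => ENNReal.ofReal (Real.sqrt (pn n) ^ 7 * KK (pn n))) atTop (𝓝 MM) := by
  have e : ∀ n, ENNReal.ofReal (Real.sqrt (pn n) ^ 7 * KK (pn n)) =
      ∫⁻ x in CD, ENNReal.ofReal (Real.exp (-(sy x / (2 * pn n) + rr x))) := fun n =>
    scaled_K _ (pn_pos n)
  simp_rw [e]
  apply lintegral_tendsto_of_tendsto_of_monotone
  · intro n
    apply Measurable.aemeasurable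
    have := measurable_sy
    have := measurable_rr
    fun_prop
  · refine Eventually.of_forall fun x n m hnm => ?_
    apply ENNReal.ofReal_le_ofReal
    apply Real.exp_le_exp.2
    have h1 : pn n ≤ pn m := by unfold pn; gcongr
    have h2 := pn_pos n
    have h3 := sy_nonneg x
    have : sy x / (2 * pn m) ≤ sy x / (2 * pn n) := by gcongr
    linarith
  · refine Eventually.of_forall fun x => ?_
    apply (ENNReal.continuous_ofReal.tendsto _).comp
    apply (Real.continuous_exp.tendsto _).comp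
    apply Tendsto.neg
    have h4 : Tendsto (fun n => 2 * pn n) atTop atTop := pn_tendsto.const_mul_atTop (by norm_num)
    have h5 := h4.inv_tendsto_atTop.const_mul (sy x)
    rw [mul_zero] at h5
    have h6 := h5.add_const (rr x)
    rw [zero_add] at h6
    refine h6.congr fun n => ?_
    simp [div_eq_mul_inv]

lemma MM_val : MM = ENNReal.ofReal (Real.sqrt (2 * Real.pi) ^ 7 / 829440) := by
  refine tendsto_nhds_unique lim_MM ?_
  apply (ENNReal.continuous_ofReal.tendsto _).comp
  have hs2 : 0 < Real.sqrt (2 * Real.pi) := by positivity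
  have e : ∀ n, Real.sqrt (pn n) ^ 7 * KK (pn n) =
      (Real.sqrt (pn n) * ∫ z, HH z * Real.exp (-(pn n * (z ^ 2 / 2)))) *
        ((Real.sqrt (2 * Real.pi)) ^ 6 / 2 * (pn n / (1 - pn n)) ^ 3) := by
    intro n
    have hp := pn_pos n
    have h1 : 1 - pn n ≠ 0 := by have := pn_gt n; linarith
    rw [← ident (pn n) hp]
    have h7 : Real.sqrt (pn n) ^ 7 = Real.sqrt (pn n) * (pn n) ^ 3 := by
      rw [show Real.sqrt (pn n) ^ 7 = Real.sqrt (pn n) * (Real.sqrt (pn n) ^ 2) ^ 3 by ring,
        Real.sq_sqrt hp.le]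
    rw [h7]
    field_simp
  simp_rw [e]
  have h8 : Tendsto (fun n => (pn n / (1 - pn n)) ^ 3) atTop (𝓝 ((-1) ^ 3)) := by
    apply Tendsto.pow
    have h9 : Tendsto (fun n => -1 - 1 / (pn n - 1)) atTop (𝓝 (-1 - 0)) := by
      apply Tendsto.const_sub
      have h10 : Tendsto (fun n => pn n - 1) atTop atTop := by
        simpa [sub_eq_add_neg] using tendsto_atTop_add_const_right atTop (-1) pn_tendsto
      have := h10.inv_tendsto_atTop
      refine this.congr fun n => ?_
      simp
    rw [sub_zero] at h9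
    refine h9.congr fun n => ?_
    have := pn_gt n
    have h1 : 1 - pn n ≠ 0 := by linarith
    have h2 : pn n - 1 ≠ 0 := by linarith
    field_simp
    ring
  have h11 := lim_RHS.mul (h8.const_mul ((Real.sqrt (2 * Real.pi)) ^ 6 / 2))
  refine h11.trans (le_of_eq ?_)
  congr 1
  ring

end Pool.Agent.W438.Vol
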