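import Pool.Agent.W438.Vol.Law

set_option autoImplicit false

open MeasureTheory ProbabilityTheory Set Filter Topology

namespace Pool.Agent.W438.Vol

lemma gam_univ (n : ℕ) : gam n univ = 1 := measure_univ

/-- signed permutations preserve the Gaussian measure -/
lemma gam_signed {n : ℕ} (σ : Equiv.Perm (Fin n)) (e : Fin n → ℝ) (he : ∀ i, e i ^ 2 = 1)
    {E : Set (Fin n → ℝ)} (hE : MeasurableSet E) :
    gam n {g | (fun i => e i * g (σ i)) ∈ E} = gam n E := by
  have h := gam_law (ι := Fin n) (m := n) (n := n) (fun i c => if c = σ i then e i else 0)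
    (fun i c => if c = i then 1 else 0) (by
      intro i k
      simp only [ite_mul, zero_mul, one_mul, Finset.sum_ite_eq', Finset.mem_univ, if_true]
      by_cases hik : i = k
      · subst hik
        simp [← sq, he]
      · have : σ i ≠ σ k := fun h => hik (σ.injective h)
        simp [this, hik]) hE
  have e1 : {g : Fin n → ℝ | (fun i => e i * g (σ i)) ∈ E} =
      {g | (Matrix.mulVec (fun i c => if c = σ i then e i else 0 : Matrix (Fin n) (Fin n) ℝ) g) ∈ E} := by
    ext g
    have : (Matrix.mulVec (fun i c => if c = σ i then e i else 0 : Matrix (Fin n) (Fin n) ℝ) g) =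
        fun i => e i * g (σ i) := by
      funext i
      simp [Matrix.mulVec, dotProduct]
    rw [Set.mem_ofPred_eq, Set.mem_ofPred_eq, this]
  have e2 : {g : Fin n → ℝ | (Matrix.mulVec (fun i c => if c = i then 1 else 0 :
      Matrix (Fin n) (Fin n) ℝ) g) ∈ E} = E := by
    ext g
    have : (Matrix.mulVec (fun i c => if c = i then 1 else 0 : Matrix (Fin n) (Fin n) ℝ) g) = g := by
      funext i
      simp [Matrix.mulVec, dotProduct]
    rw [Set.mem_ofPred_eq, this]
  rw [e1, h, e2]

lemma measurableSet_strictMono (n : ℕ) : MeasurableSet {f : Fin n → ℝ | StrictMono f} := by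
  have : {f : Fin n → ℝ | StrictMono f} = ⋂ i, ⋂ j, {f | i < j → f i < f j} := by
    ext f; simp [StrictMono]
  rw [this]
  refine MeasurableSet.iInter fun i => MeasurableSet.iInter fun j => ?_
  by_cases h : i < j
  · simp only [h, true_implies]
    exact measurableSet_lt (measurable_pi_apply _) (measurable_pi_apply _)
  · simp [h]

/-- almost surely `|f i|` are pairwise different -/
lemma gam_ae_abs_injective (n : ℕ) : ∀ᵐ f ∂(gam n), Function.Injective (fun i => |f i|) := by
  have h : ∀ i j : Fin n, i ≠ j → ∀ᵐ f ∂(gam n), |f i| ≠ |f j| := by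
    intro i j hij
    have h1 : gam n {g | ∑ l, (Pi.single i 1 - Pi.single j 1 : Fin n → ℝ) l * g l = 0} = 0 := by
      apply gam_null
      intro h0
      have := congrFun h0 i
      simp [hij] at this
    have h2 : gam n {g | ∑ l, (Pi.single i 1 + Pi.single j 1 : Fin n → ℝ) l * g l = 0} = 0 := by
      apply gam_null
      intro h0
      have := congrFun h0 i
      simp [hij] at this
    rw [ae_iff]
    refine measure_mono_null ?_ (measure_union_null h1 h2)
    intro f hf
    simp only [ne_eq, not_not, Set.mem_ofPred_eq] at hf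
    have e1 : ∑ l, (Pi.single i 1 - Pi.single j 1 : Fin n → ℝ) l * f l = f i - f j := by
      simp [sub_mul, Finset.sum_sub_distrib, Pi.single_apply]
    have e2 : ∑ l, (Pi.single i 1 + Pi.single j 1 : Fin n → ℝ) l * f l = f i + f j := by
      simp [add_mul, Finset.sum_add_distrib, Pi.single_apply]
    rcases abs_eq_abs.1 hf with h | h
    · left
      rw [Set.mem_ofPred_eq, e1, h, sub_self]
    · right
      rw [Set.mem_ofPred_eq, e2, h, neg_add_cancel]
  have : ∀ᵐ f ∂(gam n), ∀ i j : Fin n, i ≠ j → |f i| ≠ |f j| := by
    rw [ae_all_iff]; intro i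
    rw [ae_all_iff]; intro j
    by_cases hij : i = j
    · simp [hij]
    · filter_upwards [h i j hij] with f hf _ using hf
  filter_upwards [this] with f hf
  intro i j hij
  by_contra hne
  exact hf i j hne hij

/-- abstract counting of orderings -/
lemma sort_count {n : ℕ} (μ : Measure (Fin n → ℝ)) [IsProbabilityMeasure μ] (a : ℝ → ℝ)
    (ha : Measurable a)
    (hinj : ∀ᵐ f ∂μ, Function.Injective (fun i => a (f i)))
    (hperm : ∀ σ : Equiv.Perm (Fin n), μ {f | StrictMono fun i => a (f (σ i))} =
      μ {f | StrictMono fun i => a (f i)}) :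
    (n.factorial : ENNReal) * μ {f | StrictMono fun i => a (f i)} = 1 := by
  classical
  have hmeas : ∀ σ : Equiv.Perm (Fin n), MeasurableSet {f : Fin n → ℝ | StrictMono fun i => a (f (σ i))} := by
    intro σ
    exact (measurableSet_strictMono n).preimage
      (measurable_pi_lambda _ fun i => ha.comp (measurable_pi_apply _))
  have hdisj : Pairwise (Function.onFun Disjoint
      fun σ : Equiv.Perm (Fin n) => {f : Fin n → ℝ | StrictMono fun i => a (f (σ i))}) := by
    intro σ τ hστ
    rw [Function.onFun, Set.disjoint_left]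
    intro f h1 h2
    simp only [Set.mem_ofPred_eq] at h1 h2
    apply hστ
    have h3 := Tuple.unique_monotone (f := fun i => a (f i)) (σ := σ) (τ := τ) h1.monotone h2.monotone
    ext i
    have hi : Function.Injective (fun i => a (f i)) := by
      intro x y hxy
      have hx : x = σ (σ⁻¹ x) := by simp
      have hy : y = σ (σ⁻¹ y) := by simp
      have hxy' : a (f (σ (σ⁻¹ x))) = a (f (σ (σ⁻¹ y))) := by
        simpa using hxy
      have := h1.injective hxy'
      rw [hx, hy, this]
    have h4 := congrFun h3 i
    exact congrArg Fin.val (hi h4)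
  have hun : μ (⋃ σ : Equiv.Perm (Fin n), {f : Fin n → ℝ | StrictMono fun i => a (f (σ i))}) = 1 := by
    rw [prob_compl_eq_zero_iff (MeasurableSet.iUnion hmeas) |>.symm]
    rw [← nonpos_iff_eq_zero]
    have : μ {f | ¬ Function.Injective (fun i => a (f i))} = 0 := hinj
    rw [← this]
    apply measure_mono
    intro f hf hinj'
    apply hf
    rw [mem_iUnion]
    refine ⟨Tuple.sort (fun i => a (f i)), ?_⟩
    have hm := Tuple.monotone_sort (fun i => a (f i))
    exact hm.strictMono_of_injective (hinj'.comp (Equiv.injective _))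
  rw [measure_iUnion hdisj hmeas, tsum_fintype] at hun
  simp_rw [hperm] at hun
  rw [Finset.sum_const, Finset.card_univ, Fintype.card_perm, Fintype.card_fin, nsmul_eq_mul] at hun
  exact hun

/-- type `A` chambers -/
lemma gam_A (n : ℕ) : (n.factorial : ENNReal) * gam n {f | StrictMono f} = 1 := by
  refine sort_count (gam n) id measurable_id ?_ ?_
  · filter_upwards [gam_ae_abs_injective n] with f hf
    intro i j hij
    apply hf
    simp only [id] at hij
    simp [hij]
  · intro σ
    have := gam_signed σ (fun _ => 1) (by simp) (measurableSet_strictMono n)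
    simpa using this

/-- type `B` chambers -/
lemma gam_B (n : ℕ) : (2 ^ n * n.factorial : ENNReal) * gam n {f | (∀ i, 0 < f i) ∧ StrictMono f} = 1 := by
  classical
  have h1 : (n.factorial : ENNReal) * gam n {f | StrictMono fun i => |f i|} = 1 := by
    refine sort_count (gam n) (fun x => |x|) (by fun_prop) (gam_ae_abs_injective n) ?_
    intro σ
    have hE : MeasurableSet {f : Fin n → ℝ | StrictMono fun i => |f i|} :=
      (measurableSet_strictMono n).preimage
        (measurable_pi_lambda _ fun i => (measurable_pi_apply i).norm)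
    have := gam_signed σ (fun _ => 1) (by simp) hE
    simpa using this
  have hEm : MeasurableSet {f : Fin n → ℝ | (∀ i, 0 < f i) ∧ StrictMono f} := by
    have h0 : MeasurableSet {f : Fin n → ℝ | ∀ i, 0 < f i} := by
      have : {f : Fin n → ℝ | ∀ i, 0 < f i} = ⋂ i, {f | 0 < f i} := by ext; simp
      rw [this]
      exact MeasurableSet.iInter fun i => measurableSet_lt measurable_const (measurable_pi_apply _)
    have h1 : {f : Fin n → ℝ | (∀ i, 0 < f i) ∧ StrictMono f} =
      {f : Fin n → ℝ | ∀ i, 0 < f i} ∩ {f | StrictMono f} := by ext; simp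
    rw [h1]
    exact h0.inter (measurableSet_strictMono n)
  let sg : (Fin n → Bool) → Fin n → ℝ := fun e i => if e i then 1 else -1
  have h2 : gam n {f | StrictMono fun i => |f i|} =
      (2 ^ n : ENNReal) * gam n {f | (∀ i, 0 < f i) ∧ StrictMono f} := by
    have hdisj : Pairwise (Function.onFun Disjoint
        fun e : Fin n → Bool => {f : Fin n → ℝ | (fun i => sg e i * f i) ∈
          {f : Fin n → ℝ | (∀ i, 0 < f i) ∧ StrictMono f}}) := by
      intro e e' hee
      rw [Function.onFun, Set.disjoint_left]
      intro f h1 h2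
      apply hee
      funext i
      have a1 : 0 < sg e i * f i := h1.1 i
      have a2 : 0 < sg e' i * f i := h2.1 i
      simp only [sg] at a1 a2
      cases h : e i <;> cases h' : e' i <;> simp [h, h'] at a1 a2 ⊢ <;> linarith
    have hmeas : ∀ e : Fin n → Bool, MeasurableSet {f : Fin n → ℝ | (fun i => sg e i * f i) ∈
          {f : Fin n → ℝ | (∀ i, 0 < f i) ∧ StrictMono f}} := by
      intro e
      exact hEm.preimage (measurable_pi_lambda _ fun i => measurable_const.mul (measurable_pi_apply i))
    have hU := measure_iUnion (μ := gam n) hdisj hmeas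
    rw [tsum_fintype] at hU
    have h3 : ∀ e : Fin n → Bool, gam n {f : Fin n → ℝ | (fun i => sg e i * f i) ∈
          {f : Fin n → ℝ | (∀ i, 0 < f i) ∧ StrictMono f}} =
            gam n {f | (∀ i, 0 < f i) ∧ StrictMono f} := by
      intro e
      have := gam_signed (Equiv.refl (Fin n)) (sg e) (by intro i; simp only [sg]; split_ifs <;> norm_num) hEm
      simpa using this
    simp_rw [h3] at hU
    rw [Finset.sum_const, Finset.card_univ, Fintype.card_fun, Fintype.card_bool, Fintype.card_fin,
      nsmul_eq_mul] at hU
    have h4 : gam n {f | StrictMono fun i => |f i|} = gam n (⋃ e : Fin n → Bool,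
        {f : Fin n → ℝ | (fun i => sg e i * f i) ∈
          {f : Fin n → ℝ | (∀ i, 0 < f i) ∧ StrictMono f}}) := by
      apply measure_congr
      rw [Filter.eventuallyEq_set]
      have h0 : ∀ᵐ f ∂(gam n), ∀ i, f i ≠ 0 := by
        rw [ae_all_iff]
        intro i
        rw [ae_iff]
        have := gam_null (Pi.single i 1 : Fin n → ℝ) (by
          intro h; have := congrFun h i; simp at this) 0
        simpa [Pi.single_apply] using this
      filter_upwards [h0] with f hf
      simp only [Set.mem_ofPred_eq, mem_iUnion]
      constructor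
      · intro h
        refine ⟨fun i => decide (0 < f i), ?_⟩
        have : (fun i => sg (fun i => decide (0 < f i)) i * f i) = fun i => |f i| := by
          funext i
          simp only [sg, decide_eq_true_eq]
          split_ifs with hi
          · rw [one_mul, abs_of_pos hi]
          · rw [abs_of_nonpos (not_lt.1 hi)]; ring
        refine ⟨fun i => ?_, ?_⟩
        · have h7 := congrFun this i
          rw [h7]
          exact abs_pos.2 (hf i)
        · rw [this]; exact h
      · rintro ⟨e, h5, h6⟩
        have : (fun i => sg e i * f i) = fun i => |f i| := by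
          funext i
          have := h5 i
          simp only [sg] at this ⊢
          split_ifs at this ⊢ with hi
          · rw [one_mul] at this ⊢; rw [abs_of_pos this]
          · rw [abs_of_neg (by linarith)]; ring
        rwa [this] at h6
    rw [h4, hU]
    push_cast
    rfl
  rw [h2] at h1
  rw [← h1]
  ring

/-- independence of blocks -/
lemma gam_add (m n : ℕ) {E : Set (Fin m → ℝ)} {F : Set (Fin n → ℝ)} (hE : MeasurableSet E)
    (hF : MeasurableSet F) :
    gam (m + n) {h | (fun i => h (Fin.castAdd n i)) ∈ E ∧ (fun j => h (Fin.natAdd m j)) ∈ F} =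
      gam m E * gam n F := by
  have h1 := measurePreserving_piCongrLeft (fun _ : Fin (m + n) => gaussianReal 0 1) finSumFinEquiv
  have h2 := measurePreserving_sumPiEquivProdPi_symm (fun _ : Fin m ⊕ Fin n => gaussianReal 0 1)
  have h3 := h1.comp h2
  have hS : MeasurableSet {h : Fin (m + n) → ℝ | (fun i => h (Fin.castAdd n i)) ∈ E ∧
      (fun j => h (Fin.natAdd m j)) ∈ F} := by
    have a1 : MeasurableSet {h : Fin (m + n) → ℝ | (fun i => h (Fin.castAdd n i)) ∈ E} :=
      hE.preimage (measurable_pi_lambda _ fun i => measurable_pi_apply _)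
    have a2 : MeasurableSet {h : Fin (m + n) → ℝ | (fun i => h (Fin.natAdd m i)) ∈ F} :=
      hF.preimage (measurable_pi_lambda _ fun i => measurable_pi_apply _)
    exact a1.inter a2
  rw [← h3.measure_preimage hS.nullMeasurableSet]
  rw [← Measure.prod_prod]
  congr 1
  ext ⟨f, g⟩
  simp only [mem_preimage, Set.mem_ofPred_eq, Set.mem_prod, Function.comp]
  have e1 : (fun i => (MeasurableEquiv.piCongrLeft (fun _ : Fin (m + n) => ℝ) finSumFinEquiv)
      ((MeasurableEquiv.sumPiEquivProdPi (fun _ : Fin m ⊕ Fin n => ℝ)).symm (f, g)) (Fin.castAdd n i)) = f := by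
    funext i
    have : Fin.castAdd n i = finSumFinEquiv (Sum.inl i) := by simp
    rw [this, MeasurableEquiv.coe_piCongrLeft, Equiv.piCongrLeft_apply_apply]
    rfl
  have e2 : (fun i => (MeasurableEquiv.piCongrLeft (fun _ : Fin (m + n) => ℝ) finSumFinEquiv)
      ((MeasurableEquiv.sumPiEquivProdPi (fun _ : Fin m ⊕ Fin n => ℝ)).symm (f, g)) (Fin.natAdd m i)) = g := by
    funext i
    have : Fin.natAdd m i = finSumFinEquiv (Sum.inr i) := by simp
    rw [this, MeasurableEquiv.coe_piCongrLeft, Equiv.piCongrLeft_apply_apply]
    rfl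
  rw [e1, e2]

end Pool.Agent.W438.Vol
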