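import Pool.Agent.W438.Vol.Cone2

set_option autoImplicit false

open MeasureTheory ProbabilityTheory Set Filter Topology

namespace Pool.Agent.W438.Vol

/-- hyperboloid coordinates: the point (sqrt(1+|y|^2), y) of H^6; hyperbolic measure dy / sqrt(1+|y|^2) -/
noncomputable def hypMeas : Measure (Fin 6 → ℝ) :=
  volume.withDensity (fun y => ENNReal.ofReal (1 / Real.sqrt (1 + ∑ j, y j ^ 2)))

/-- P^6 : facets a_i : y_i >= 0, c_ij : y_i + y_j <= x0, b_j : sum_{i != j} y_i <= 2 x0, x0 = sqrt(1+|y|^2) -/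
def P6 : Set (Fin 6 → ℝ) := {y | (∀ i, 0 ≤ y i) ∧
  (∀ i j, i ≠ j → y i + y j ≤ Real.sqrt (1 + ∑ k, y k ^ 2)) ∧
  (∀ j, ∑ i, y i - y j ≤ 2 * Real.sqrt (1 + ∑ k, y k ^ 2))}

lemma cons_CP (x0 : ℝ) (y : Fin 6 → ℝ) : (Fin.cons x0 y : Fin 7 → ℝ) ∈ CP ↔
    ((∀ i, 0 ≤ y i) ∧ (∀ i j, i ≠ j → y i + y j ≤ x0) ∧ (∀ j, ∑ i, y i - y j ≤ 2 * x0)) := by
  simp only [CP, Set.mem_ofPred_eq, Fin.cons_zero, Fin.cons_succ]
  constructor
  · rintro ⟨h1, h2, h3⟩
    refine ⟨fun i => ?_, fun i j hij => ?_, fun j => ?_⟩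
    · simpa using h1 i.succ (Fin.succ_ne_zero i)
    · simpa using h2 i.succ j.succ (Fin.succ_ne_zero i) (Fin.succ_ne_zero j)
        (fun h => hij (Fin.succ_injective _ h))
    · simpa using h3 j.succ (Fin.succ_ne_zero j)
  · rintro ⟨h1, h2, h3⟩
    refine ⟨fun i => ?_, fun i j => ?_, fun j => ?_⟩
    · refine Fin.cases (fun h => absurd rfl h) (fun i _ => ?_) i
      simpa using h1 i
    · refine Fin.cases (fun h => absurd rfl h) (fun i _ => ?_) i
      refine Fin.cases (fun h => absurd rfl h) (fun j _ hij => ?_) j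
      simpa using h2 i j (fun h => hij (by rw [h]))
    · refine Fin.cases (fun h => absurd rfl h) (fun j _ => ?_) j
      simpa using h3 j

lemma P6_iff (w : Fin 6 → ℝ) : w ∈ P6 ↔ (Fin.cons (Real.sqrt (1 + ∑ k, w k ^ 2)) w : Fin 7 → ℝ) ∈ CP := by
  rw [cons_CP]; rfl

lemma CP_smul (c : ℝ) (hc : 0 < c) (x : Fin 7 → ℝ) : c • x ∈ CP ↔ x ∈ CP := by
  simp only [CP, Set.mem_ofPred_eq, Pi.smul_apply, smul_eq_mul]
  have hs : ∑ k : Fin 6, c * x k.succ = c * ∑ k : Fin 6, x k.succ := by rw [Finset.mul_sum]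
  rw [hs]
  refine and_congr ?_ (and_congr ?_ ?_)
  · refine forall_congr' fun i => imp_congr_right fun _ => ?_
    exact mul_nonneg_iff_of_pos_left hc
  · refine forall_congr' fun i => forall_congr' fun j => imp_congr_right fun _ =>
      imp_congr_right fun _ => imp_congr_right fun _ => ?_
    rw [← mul_add, mul_le_mul_iff_right₀ hc]
  · refine forall_congr' fun j => imp_congr_right fun _ => ?_
    rw [← mul_sub, show 2 * (c * x 0) = c * (2 * x 0) by ring, mul_le_mul_iff_right₀ hc]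

/-- the integrand in polar coordinates -/
noncomputable def Psi (ρ : ℝ) (y : Fin 6 → ℝ) : ENNReal :=
  ENNReal.ofReal (ρ / Real.sqrt (ρ ^ 2 + ∑ k, y k ^ 2)) *
    ({x : Fin 7 → ℝ | x ∈ CP}.indicator (fun _ => ENNReal.ofReal (Real.exp (-(ρ ^ 2 / 2))))
      (Fin.cons (Real.sqrt (ρ ^ 2 + ∑ k, y k ^ 2)) y))

lemma measurable_cons' {α : Type*} [MeasurableSpace α] {f : α → ℝ} {g : α → Fin 6 → ℝ}
    (hf : Measurable f) (hg : Measurable g) :
    Measurable (fun a => (Fin.cons (f a) (g a) : Fin 7 → ℝ)) := by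
  refine measurable_pi_lambda _ fun i => ?_
  refine Fin.cases ?_ (fun k => ?_) i
  · simpa using hf
  · have := (measurable_pi_apply k).comp hg
    simpa [Function.comp_def] using this

lemma measurable_Psi : Measurable (Function.uncurry Psi) := by
  unfold Psi Function.uncurry
  apply Measurable.mul
  · fun_prop
  · have h : (fun a : ℝ × (Fin 6 → ℝ) => ({x : Fin 7 → ℝ | x ∈ CP}.indicator
        (fun _ => ENNReal.ofReal (Real.exp (-(a.1 ^ 2 / 2))))
        (Fin.cons (Real.sqrt (a.1 ^ 2 + ∑ k, a.2 k ^ 2)) a.2))) =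
        ((fun a : ℝ × (Fin 6 → ℝ) => (Fin.cons (Real.sqrt (a.1 ^ 2 + ∑ k, a.2 k ^ 2)) a.2 :
          Fin 7 → ℝ)) ⁻¹' CP).indicator (fun a => ENNReal.ofReal (Real.exp (-(a.1 ^ 2 / 2)))) := by
      funext a
      rfl
    rw [h]
    apply Measurable.indicator
    · fun_prop
    · apply measurableSet_CP.preimage
      apply measurable_cons' <;> fun_prop

/-- one dimensional substitution `x₀ = √(ρ² + a)` -/
lemma subst1 (a : ℝ) (ha : 0 ≤ a) (g : ℝ → ENNReal) :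
    ∫⁻ x in Ioi (Real.sqrt a), g x =
      ∫⁻ ρ in Ioi (0 : ℝ), ENNReal.ofReal (ρ / Real.sqrt (ρ ^ 2 + a)) * g (Real.sqrt (ρ ^ 2 + a)) := by
  have himg : (fun ρ : ℝ => Real.sqrt (ρ ^ 2 + a)) '' Ioi 0 = Ioi (Real.sqrt a) := by
    ext x
    simp only [mem_image, mem_Ioi]
    constructor
    · rintro ⟨ρ, hρ, rfl⟩
      apply Real.sqrt_lt_sqrt ha
      have : 0 < ρ ^ 2 := by positivity
      linarith
    · intro hx
      have hx0 : 0 < x := lt_of_le_of_lt (Real.sqrt_nonneg a) hx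
      have hx2 : a < x ^ 2 := by
        rw [← Real.sqrt_lt_sqrt_iff ha, Real.sqrt_sq hx0.le]; exact hx
      refine ⟨Real.sqrt (x ^ 2 - a), Real.sqrt_pos.2 (by linarith), ?_⟩
      rw [Real.sq_sqrt (by linarith), sub_add_cancel, Real.sqrt_sq hx0.le]
  have hinj : InjOn (fun ρ : ℝ => Real.sqrt (ρ ^ 2 + a)) (Ioi 0) := by
    intro r hr s hs h
    have hr' : (0 : ℝ) < r := hr
    have hs' : (0 : ℝ) < s := hs
    have h1 : Real.sqrt (r ^ 2 + a) = Real.sqrt (s ^ 2 + a) := h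
    have h2 : r ^ 2 + a = s ^ 2 + a := by
      have := congrArg (fun t => t ^ 2) h1
      simpa [Real.sq_sqrt (show 0 ≤ r ^ 2 + a by positivity),
        Real.sq_sqrt (show 0 ≤ s ^ 2 + a by positivity)] using this
    have h3 : r ^ 2 = s ^ 2 := by linarith
    exact (pow_left_inj₀ hr'.le hs'.le two_ne_zero).1 h3
  have hder : ∀ ρ ∈ Ioi (0 : ℝ), HasDerivWithinAt (fun ρ : ℝ => Real.sqrt (ρ ^ 2 + a))
      (ρ / Real.sqrt (ρ ^ 2 + a)) (Ioi 0) ρ := by
    intro ρ hρ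
    have hρ' : (0 : ℝ) < ρ := hρ
    have h1 : HasDerivAt (fun ρ : ℝ => ρ ^ 2 + a) (2 * ρ) ρ := by
      have := (hasDerivAt_pow 2 ρ).add_const a
      simpa using this
    have h2 := h1.sqrt (by positivity)
    have h3 : 2 * ρ / (2 * Real.sqrt (ρ ^ 2 + a)) = ρ / Real.sqrt (ρ ^ 2 + a) := by
      rw [mul_div_mul_left _ _ two_ne_zero]
    rw [h3] at h2
    exact h2.hasDerivWithinAt
  rw [← himg, lintegral_image_eq_lintegral_abs_deriv_mul measurableSet_Ioi hder hinj]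
  refine setLIntegral_congr_fun measurableSet_Ioi fun ρ hρ => ?_
  have hρ' : (0 : ℝ) < ρ := hρ
  rw [abs_of_nonneg (by positivity)]

/-- scaling in dimension 6 -/
lemma scale6 (c : ℝ) (hc : 0 < c) (f : (Fin 6 → ℝ) → ENNReal) (hf : Measurable f) :
    ∫⁻ x, f x = ENNReal.ofReal (c ^ 6) * ∫⁻ x, f (c • x) := by
  have h := Measure.map_addHaar_smul (volume : Measure (Fin 6 → ℝ)) hc.ne'
  have hm : Measurable (fun x : Fin 6 → ℝ => c • x) := measurable_const_smul c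
  rw [← lintegral_map hf hm, h, lintegral_smul_measure, smul_eq_mul, Module.finrank_fin_fun,
    abs_of_pos (by positivity), ← mul_assoc, ← ENNReal.ofReal_mul (by positivity),
    mul_inv_cancel₀ (by positivity), ENNReal.ofReal_one, one_mul]

lemma Psi_smul (ρ : ℝ) (hρ : 0 < ρ) (w : Fin 6 → ℝ) : Psi ρ (ρ • w) =
    ENNReal.ofReal (Real.exp (-(ρ ^ 2 / 2))) *
      P6.indicator (fun w => ENNReal.ofReal (1 / Real.sqrt (1 + ∑ k, w k ^ 2))) w := by
  unfold Psi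
  have e1 : ρ ^ 2 + ∑ k, (ρ • w) k ^ 2 = ρ ^ 2 * (1 + ∑ k, w k ^ 2) := by
    rw [mul_add, mul_one, Finset.mul_sum]
    congr 1
    refine Finset.sum_congr rfl fun k _ => ?_
    simp only [Pi.smul_apply, smul_eq_mul]
    ring
  have hS : 0 ≤ ∑ k, w k ^ 2 := Finset.sum_nonneg fun _ _ => sq_nonneg _
  have e2 : Real.sqrt (ρ ^ 2 * (1 + ∑ k, w k ^ 2)) = ρ * Real.sqrt (1 + ∑ k, w k ^ 2) := by
    rw [Real.sqrt_mul (by positivity), Real.sqrt_sq hρ.le]
  rw [e1, e2]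
  have e3 : (Fin.cons (ρ * Real.sqrt (1 + ∑ k, w k ^ 2)) (ρ • w) : Fin 7 → ℝ) =
      ρ • (Fin.cons (Real.sqrt (1 + ∑ k, w k ^ 2)) w : Fin 7 → ℝ) := by
    funext i
    refine Fin.cases ?_ (fun k => ?_) i <;> simp
  rw [e3]
  have hpos : 0 < Real.sqrt (1 + ∑ k, w k ^ 2) := by positivity
  have e4 : ρ / (ρ * Real.sqrt (1 + ∑ k, w k ^ 2)) = 1 / Real.sqrt (1 + ∑ k, w k ^ 2) := by
    field_simp
  rw [e4]
  by_cases hw : w ∈ P6
  · have h1 : ρ • (Fin.cons (Real.sqrt (1 + ∑ k, w k ^ 2)) w : Fin 7 → ℝ) ∈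
        {x : Fin 7 → ℝ | x ∈ CP} := (CP_smul ρ hρ _).2 ((P6_iff w).1 hw)
    rw [Set.indicator_of_mem h1, Set.indicator_of_mem hw, mul_comm]
  · have h1 : ρ • (Fin.cons (Real.sqrt (1 + ∑ k, w k ^ 2)) w : Fin 7 → ℝ) ∉
        {x : Fin 7 → ℝ | x ∈ CP} := fun h => hw ((P6_iff w).2 ((CP_smul ρ hρ _).1 h))
    rw [Set.indicator_of_notMem h1, Set.indicator_of_notMem hw, mul_zero, mul_zero]

lemma measurableSet_P6 : MeasurableSet P6 := by
  have : P6 = (fun w : Fin 6 → ℝ => (Fin.cons (Real.sqrt (1 + ∑ k, w k ^ 2)) w : Fin 7 → ℝ)) ⁻¹' CP := by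
    ext w; exact P6_iff w
  rw [this]
  apply measurableSet_CP.preimage
  apply measurable_cons' <;> fun_prop

/-- **polar coordinates** -/
lemma muM_polar : muM CP = (∫⁻ ρ in Ioi (0 : ℝ), ENNReal.ofReal (ρ ^ 6 * Real.exp (-(ρ ^ 2 / 2)))) *
    hypMeas P6 := by
  rw [muM_apply measurableSet_CP, ← lintegral_indicator (measurableSet_CP.inter measurableSet_LC)]
  have hvp := (volume_preserving_piFinSuccAbove (fun _ : Fin 7 => ℝ) 0).symm
  have hGm : Measurable ((CP ∩ LC).indicator dens) :=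
    measurable_dens.indicator (measurableSet_CP.inter measurableSet_LC)
  rw [← hvp.lintegral_comp hGm, Measure.volume_eq_prod]
  rw [lintegral_prod_symm (fun a : ℝ × (Fin 6 → ℝ) => (CP ∩ LC).indicator dens
    ((MeasurableEquiv.piFinSuccAbove (fun _ : Fin 7 => ℝ) 0).symm a))
    (hGm.comp hvp.measurable).aemeasurable]
  have e1 : ∀ y : Fin 6 → ℝ, ∫⁻ x0 : ℝ, (CP ∩ LC).indicator dens
      ((MeasurableEquiv.piFinSuccAbove (fun _ : Fin 7 => ℝ) 0).symm (x0, y)) =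
      ∫⁻ ρ in Ioi (0 : ℝ), Psi ρ y := by
    intro y
    have hcons : ∀ x0 : ℝ, (MeasurableEquiv.piFinSuccAbove (fun _ : Fin 7 => ℝ) 0).symm (x0, y) =
        (Fin.cons x0 y : Fin 7 → ℝ) := by
      intro x0
      simp [MeasurableEquiv.piFinSuccAbove]
      rfl
    simp_rw [hcons]
    set a : ℝ := ∑ k, y k ^ 2 with ha
    have ha0 : 0 ≤ a := Finset.sum_nonneg fun _ _ => sq_nonneg _
    have hsy : ∀ x0 : ℝ, sy (Fin.cons x0 y : Fin 7 → ℝ) = a := by
      intro x0; simp [sy, ha]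
    have hLC : ∀ x0 : ℝ, (Fin.cons x0 y : Fin 7 → ℝ) ∈ LC ↔ x0 ∈ Ioi (Real.sqrt a) := by
      intro x0
      simp only [LC, Set.mem_ofPred_eq, hsy, Fin.cons_zero, mem_Ioi]
      constructor
      · rintro ⟨h1, h2⟩
        rw [← Real.sqrt_sq h1.le]
        exact Real.sqrt_lt_sqrt ha0 h2
      · intro h
        have h0 : 0 < x0 := lt_of_le_of_lt (Real.sqrt_nonneg a) h
        refine ⟨h0, ?_⟩
        rw [← Real.sqrt_lt_sqrt_iff ha0, Real.sqrt_sq h0.le]; exact h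
    have e2 : ∀ x0 : ℝ, (CP ∩ LC).indicator dens (Fin.cons x0 y : Fin 7 → ℝ) =
        (Ioi (Real.sqrt a)).indicator (fun x0 => ({x : Fin 7 → ℝ | x ∈ CP}.indicator
          (fun _ => ENNReal.ofReal (Real.exp (-((x0 ^ 2 - a) / 2)))) (Fin.cons x0 y))) x0 := by
      intro x0
      by_cases h1 : x0 ∈ Ioi (Real.sqrt a)
      · rw [Set.indicator_of_mem h1]
        by_cases h2 : (Fin.cons x0 y : Fin 7 → ℝ) ∈ CP
        · rw [Set.indicator_of_mem (show (Fin.cons x0 y : Fin 7 → ℝ) ∈ CP ∩ LC from ⟨h2, (hLC x0).2 h1⟩),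
            Set.indicator_of_mem (show (Fin.cons x0 y : Fin 7 → ℝ) ∈ {x : Fin 7 → ℝ | x ∈ CP} from h2)]
          unfold dens rr
          rw [hsy, Fin.cons_zero]
        · rw [Set.indicator_of_notMem (fun h => h2 h.1),
            Set.indicator_of_notMem (show (Fin.cons x0 y : Fin 7 → ℝ) ∉ {x : Fin 7 → ℝ | x ∈ CP} from h2)]
      · rw [Set.indicator_of_notMem h1, Set.indicator_of_notMem (fun h => h1 ((hLC x0).1 h.2))]
    simp_rw [e2]
    rw [lintegral_indicator measurableSet_Ioi, subst1 a ha0]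
    refine setLIntegral_congr_fun measurableSet_Ioi fun ρ hρ => ?_
    have hρ' : (0 : ℝ) < ρ := hρ
    simp only [Psi]
    rw [← ha]
    congr 2
    funext _
    congr 3
    rw [Real.sq_sqrt (by positivity)]
    ring
  rw [lintegral_congr e1]
  rw [lintegral_lintegral_swap]
  · have e3 : ∀ ρ ∈ Ioi (0 : ℝ), ∫⁻ y, Psi ρ y =
        ENNReal.ofReal (ρ ^ 6 * Real.exp (-(ρ ^ 2 / 2))) * hypMeas P6 := by
      intro ρ hρ
      have hρ' : (0 : ℝ) < ρ := hρ
      have hm : Measurable (Psi ρ) := measurable_Psi.comp measurable_prodMk_left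
      rw [scale6 ρ hρ' (Psi ρ) hm]
      simp_rw [Psi_smul ρ hρ']
      rw [lintegral_const_mul' _ _ ENNReal.ofReal_ne_top, lintegral_indicator measurableSet_P6,
        ← mul_assoc, ← ENNReal.ofReal_mul (by positivity)]
      congr 1
      unfold hypMeas
      rw [withDensity_apply _ measurableSet_P6]
    rw [setLIntegral_congr_fun measurableSet_Ioi e3, lintegral_mul_const'']
    apply Measurable.aemeasurable
    fun_prop
  · have h := measurable_Psi.comp measurable_swap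
    exact h.aemeasurable

end Pool.Agent.W438.Vol
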