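import Pool.Agent.W438.Vol.E6

set_option autoImplicit false

open MeasureTheory ProbabilityTheory Set Filter Topology

namespace Pool.Agent.W438.Vol

/-- sign pattern `< 0` before `o`, `≥ 0` from `o` on -/
def TP (o : ℕ) : Set (Fin 7 → ℝ) := {v | ∀ i : Fin 7, (o ≤ i.val → 0 ≤ v i) ∧ (i.val < o → v i < 0)}

lemma measurableSet_TP (o : ℕ) : MeasurableSet (TP o) := by
  have : TP o = ⋂ i : Fin 7, {v | (o ≤ i.val → 0 ≤ v i) ∧ (i.val < o → v i < 0)} := by ext; simp [TP]
  rw [this]
  refine MeasurableSet.iInter fun i => ?_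
  have e : {v : Fin 7 → ℝ | (o ≤ i.val → 0 ≤ v i) ∧ (i.val < o → v i < 0)} =
      {v | o ≤ i.val → 0 ≤ v i} ∩ {v | i.val < o → v i < 0} := by ext; simp
  rw [e]
  refine MeasurableSet.inter ?_ ?_
  · by_cases h : o ≤ i.val
    · simp only [h, true_implies]
      exact measurableSet_le measurable_const (measurable_pi_apply _)
    · simp [h]
  · by_cases h : i.val < o
    · simp only [h, true_implies]
      exact measurableSet_lt (measurable_pi_apply _) measurable_const
    · simp [h]

lemma SP_eq (o : Fin 7) : SP o = TP o.val ∪ TP (o.val + 1) := by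
  ext v
  simp only [SP, TP, mem_union, Set.mem_ofPred_eq]
  constructor
  · intro h
    rcases le_or_gt 0 (v o) with h0 | h0
    · left
      intro i
      refine ⟨fun hi => ?_, fun hi => (h i).2 (Fin.lt_def.2 hi)⟩
      rcases eq_or_lt_of_le hi with h1 | h1
      · have : o = i := Fin.ext h1
        rw [← this]; exact h0
      · exact (h i).1 (Fin.lt_def.2 h1)
    · right
      intro i
      refine ⟨fun hi => (h i).1 (Fin.lt_def.2 hi), fun hi => ?_⟩
      rcases eq_or_lt_of_le (Nat.lt_succ_iff.1 hi) with h1 | h1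
      · have : i = o := Fin.ext h1
        rw [this]; exact h0
      · exact (h i).2 (Fin.lt_def.2 h1)
  · rintro (h | h) i
    · exact ⟨fun hi => (h i).1 (le_of_lt (Fin.lt_def.1 hi)), fun hi => (h i).2 (Fin.lt_def.1 hi)⟩
    · exact ⟨fun hi => (h i).1 (Fin.lt_def.1 hi), fun hi => (h i).2 (Nat.lt_succ_of_lt (Fin.lt_def.1 hi))⟩

lemma TP_disj (o : Fin 7) : Disjoint (TP o.val) (TP (o.val + 1)) := by
  rw [Set.disjoint_left]
  intro v h1 h2
  have a := (h1 o).1 le_rfl
  have b := (h2 o).2 (Nat.lt_succ_self _)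
  linarith

/-- telescoping for a finite measure -/
lemma telescope (μ : Measure (Fin 7 → ℝ)) [IsFiniteMeasure μ] :
    (μ (TP 0)).toReal + (μ (TP 7)).toReal = ∑ o : Fin 7, (-1 : ℝ) ^ o.val * (μ (SP o)).toReal := by
  have h : ∀ o : Fin 7, (μ (SP o)).toReal = (μ (TP o.val)).toReal + (μ (TP (o.val + 1))).toReal := by
    intro o
    rw [SP_eq, measure_union (TP_disj o) (measurableSet_TP _),
      ENNReal.toReal_add (measure_ne_top _ _) (measure_ne_top _ _)]
  simp_rw [h]
  simp [Fin.sum_univ_succ]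
  ring

lemma AN_nz : ∀ i : Fin 7, ∃ c : Fin 7, AN i c ≠ 0 := by
  intro i
  fin_cases i
  · exact ⟨0, by decide⟩
  · exact ⟨1, by decide⟩
  · exact ⟨2, by decide⟩
  · exact ⟨3, by decide⟩
  · exact ⟨4, by decide⟩
  · exact ⟨5, by decide⟩
  · exact ⟨6, by decide⟩

/-- the map `g ↦ walls of the scaled vector` -/
noncomputable def VV (p : ℝ) (g : Fin 7 → ℝ) : Fin 7 → ℝ := XX (fun c => DD p c * g c)

lemma measurable_VV (p : ℝ) : Measurable (VV p) := by
  unfold VV XX
  fun_prop

lemma XX_neg (x : Fin 7 → ℝ) (i : Fin 7) : XX (fun c => -x c) i = -XX x i := by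
  unfold XX
  rw [← Finset.sum_neg_distrib]
  exact Finset.sum_congr rfl fun c _ => by ring

lemma tp7 (p : ℝ) (hp0 : 0 < p) (hp1 : p < 1) :
    gam 7 (VV p ⁻¹' TP 7) = gam 7 (VV p ⁻¹' TP 0) := by
  have hq : 0 < 1 - p := by linarith
  have hE := (measurable_VV p) (measurableSet_TP 0)
  have e1 := gam_signed (Equiv.refl (Fin 7)) (fun _ => -1) (by simp) hE
  rw [← e1]
  apply measure_congr
  rw [Filter.eventuallyEq_set]
  have hae : ∀ᵐ g ∂(gam 7), ∀ i, VV p g i ≠ 0 := by
    rw [ae_all_iff]
    intro i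
    have h1 := gam_null (fun c => (AN i c : ℝ) * DD p c) (by
      intro h0
      have hD : ∀ c, DD p c ≠ 0 := by
        intro c
        unfold DD
        split_ifs
        · have := Real.sqrt_pos.2 hp0; positivity
        · have := Real.sqrt_pos.2 hq; positivity
      have h2 : ∀ c, (AN i c : ℝ) = 0 := by
        intro c
        have := congrFun h0 c
        simpa [hD c] using this
      have h3 : ∀ c, AN i c = 0 := fun c => by exact_mod_cast h2 c
      have h4 := AN_nz
      obtain ⟨c, hc⟩ := h4 i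
      exact hc (h3 c)) 0
    rw [ae_iff]
    refine measure_mono_null ?_ h1
    intro g hg
    simp only [ne_eq, not_not, Set.mem_ofPred_eq, VV, XX] at hg
    rw [Set.mem_ofPred_eq, ← hg]
    exact Finset.sum_congr rfl fun c _ => by ring
  filter_upwards [hae] with g hg
  have e2 : VV p (fun i => (-1 : ℝ) * g ((Equiv.refl (Fin 7)) i)) = fun i => -VV p g i := by
    funext i
    unfold VV
    rw [← XX_neg]
    congr 1
    funext c
    simp
  simp only [mem_preimage, Set.mem_ofPred_eq, e2, TP]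
  constructor
  · intro h i
    refine ⟨fun _ => ?_, fun hi => absurd hi (Nat.not_lt_zero _)⟩
    have := (h i).2 i.isLt
    linarith
  · intro h i
    refine ⟨fun hi => absurd i.isLt (not_lt.2 hi), fun _ => ?_⟩
    have h1 := (h i).1 (Nat.zero_le _)
    have h2 := hg i
    have h3 : VV p g i ≤ 0 := by linarith
    exact lt_of_le_of_ne h3 h2

lemma two_t0 (p : ℝ) (hp0 : 0 < p) (hp1 : p < 1) :
    2 * (gam 7 (VV p ⁻¹' TP 0)).toReal = ∑ o : Fin 7, (-1 : ℝ) ^ o.val * (PP o p).toReal := by
  have hm := measurable_VV p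
  have := Measure.isProbabilityMeasure_map (μ := gam 7) hm.aemeasurable
  have h := telescope ((gam 7).map (VV p))
  rw [Measure.map_apply hm (measurableSet_TP _), Measure.map_apply hm (measurableSet_TP _),
    tp7 p hp0 hp1] at h
  rw [two_mul, h]
  refine Finset.sum_congr rfl fun o _ => ?_
  rw [Measure.map_apply hm (measurableSet_SP _)]
  rfl

end Pool.Agent.W438.Vol
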