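import Pool.Agent.W438.Vol.Models

set_option autoImplicit false

open MeasureTheory ProbabilityTheory Set Filter Topology

namespace Pool.Agent.W438.Vol

/-- the 72 exceptional classes -/
def OL : List (Fin 7 → ℤ) :=
  [![1,0,0,0,0,0,0], ![2,0,0,0,1,1,1], ![2,0,0,1,0,1,1], ![2,0,0,1,1,0,1], ![2,0,0,1,1,1,0], 
    ![2,0,1,0,0,1,1], ![2,0,1,0,1,0,1], ![2,0,1,0,1,1,0], ![2,0,1,1,0,0,1], ![2,0,1,1,0,1,0], 
    ![2,0,1,1,1,0,0], ![2,1,0,0,0,1,1], ![2,1,0,0,1,0,1], ![2,1,0,0,1,1,0], ![2,1,0,1,0,0,1], 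
    ![2,1,0,1,0,1,0], ![2,1,0,1,1,0,0], ![2,1,1,0,0,0,1], ![2,1,1,0,0,1,0], ![2,1,1,0,1,0,0], 
    ![2,1,1,1,0,0,0], ![3,0,1,1,1,1,2], ![3,0,1,1,1,2,1], ![3,0,1,1,2,1,1], ![3,0,1,2,1,1,1], 
    ![3,0,2,1,1,1,1], ![3,1,0,1,1,1,2], ![3,1,0,1,1,2,1], ![3,1,0,1,2,1,1], ![3,1,0,2,1,1,1], 
    ![3,1,1,0,1,1,2], ![3,1,1,0,1,2,1], ![3,1,1,0,2,1,1], ![3,1,1,1,0,1,2], ![3,1,1,1,0,2,1], 
    ![3,1,1,1,1,0,2], ![3,1,1,1,1,2,0], ![3,1,1,1,2,0,1], ![3,1,1,1,2,1,0], ![3,1,1,2,0,1,1], 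
    ![3,1,1,2,1,0,1], ![3,1,1,2,1,1,0], ![3,1,2,0,1,1,1], ![3,1,2,1,0,1,1], ![3,1,2,1,1,0,1], 
    ![3,1,2,1,1,1,0], ![3,2,0,1,1,1,1], ![3,2,1,0,1,1,1], ![3,2,1,1,0,1,1], ![3,2,1,1,1,0,1], 
    ![3,2,1,1,1,1,0], ![4,1,1,1,2,2,2], ![4,1,1,2,1,2,2], ![4,1,1,2,2,1,2], ![4,1,1,2,2,2,1], 
    ![4,1,2,1,1,2,2], ![4,1,2,1,2,1,2], ![4,1,2,1,2,2,1], ![4,1,2,2,1,1,2], ![4,1,2,2,1,2,1], 
    ![4,1,2,2,2,1,1], ![4,2,1,1,1,2,2], ![4,2,1,1,2,1,2], ![4,2,1,1,2,2,1], ![4,2,1,2,1,1,2], 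
    ![4,2,1,2,1,2,1], ![4,2,1,2,2,1,1], ![4,2,2,1,1,1,2], ![4,2,2,1,1,2,1], ![4,2,2,1,2,1,1], 
    ![4,2,2,2,1,1,1], ![5,2,2,2,2,2,2]]

def O72 : Finset (Fin 7 → ℤ) := OL.toFinset

lemma OL_nodup : OL.Nodup := by decide +kernel

lemma card_O72 : O72.card = 72 := by
  rw [O72, List.toFinset_card_of_nodup OL_nodup]; decide +kernel

/-- the Lorentzian pairing -/
def pr (h : Fin 7 → ℤ) (x : Fin 7 → ℝ) : ℝ := h 0 * x 0 - ∑ k : Fin 6, (h k.succ : ℝ) * x k.succ

def aa : Fin 7 → ℤ := ![1,1,1,1,0,0,0]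

/-- reflection -/
def r0 (x : Fin 7 → ℝ) : Fin 7 → ℝ := fun i => x i + (x 0 - x 1 - x 2 - x 3) * aa i

def R0 (h : Fin 7 → ℤ) : Fin 7 → ℤ := fun i => h i + (h 0 - h 1 - h 2 - h 3) * aa i

lemma pr_r0 (h : Fin 7 → ℤ) (x : Fin 7 → ℝ) : pr h (r0 x) = pr (R0 h) x := by
  simp [pr, r0, R0, aa, Fin.sum_univ_succ]
  ring

/-- coordinate swaps -/
lemma pr_perm (h : Fin 7 → ℤ) (x : Fin 7 → ℝ) (τ : Equiv.Perm (Fin 7)) (hτ : τ 0 = 0) :
    pr h (fun i => x (τ i)) = pr (fun i => h (τ⁻¹ i)) x := by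
  have h1 : ∀ (f : Fin 7 → ℝ), ∑ k : Fin 6, f k.succ = ∑ i, f i - f 0 := by
    intro f
    have := Fin.sum_univ_succ f
    linarith
  unfold pr
  rw [h1 (fun i => (h i : ℝ) * x (τ i)), h1 (fun i => (h (τ⁻¹ i) : ℝ) * x i)]
  have h2 : ∑ i, (h i : ℝ) * x (τ i) = ∑ i, (h (τ⁻¹ i) : ℝ) * x i := by
    rw [← Equiv.sum_comp τ (fun i => (h (τ⁻¹ i) : ℝ) * x i)]
    simp
  have h3 : τ⁻¹ 0 = 0 := by rw [Equiv.Perm.inv_eq_iff_eq, hτ]
  rw [h2]
  simp only [h3, hτ]

def ell (h : Fin 7 → ℤ) : ℤ := 100 * h 0 - (6 * h 1 + 5 * h 2 + 4 * h 3 + 3 * h 4 + 2 * h 5 + h 6)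

/-- the six generators acting on classes -/
def GG (j : Fin 6) (h : Fin 7 → ℤ) : Fin 7 → ℤ :=
  if j = 0 then R0 h else fun i => h (Equiv.swap j.castSucc j.succ i)

/-- the six generators acting on vectors -/
def gg (j : Fin 6) (x : Fin 7 → ℝ) : Fin 7 → ℝ :=
  if j = 0 then r0 x else fun i => x (Equiv.swap j.castSucc j.succ i)

lemma GG_mem : ∀ h ∈ OL, ∀ j, GG j h ∈ OL := by decide +kernel

lemma ell_dec : ∀ h ∈ OL, h = ![1,0,0,0,0,0,0] ∨ ∃ j, ell (GG j h) < ell h := by decide +kernel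

lemma ell_pos : ∀ h ∈ OL, 0 ≤ ell h := by decide +kernel

lemma coef : ∀ h ∈ OL, 0 ≤ h 0 - 1 ∧ 0 ≤ h 0 - 1 - h 1 ∧ 0 ≤ 2 * (h 0 - 1) - h 1 - h 2 ∧
    0 ≤ 3 * (h 0 - 1) - h 1 - h 2 - h 3 ∧ 0 ≤ 3 * (h 0 - 1) - h 1 - h 2 - h 3 - h 4 ∧
    0 ≤ 3 * (h 0 - 1) - h 1 - h 2 - h 3 - h 4 - h 5 ∧
    3 * (h 0 - 1) - h 1 - h 2 - h 3 - h 4 - h 5 - h 6 = 0 := by decide +kernel

lemma GG_GG (j : Fin 6) (h : Fin 7 → ℤ) : GG j (GG j h) = h := by
  unfold GG
  split_ifs with hj
  · funext i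
    fin_cases i <;> simp [R0, aa] <;> ring
  · funext i
    simp

lemma pr_gg (j : Fin 6) (h : Fin 7 → ℤ) (x : Fin 7 → ℝ) : pr h (gg j x) = pr (GG j h) x := by
  unfold gg GG
  split_ifs with hj
  · exact pr_r0 h x
  · have h1 : (Equiv.swap j.castSucc j.succ) 0 = (0 : Fin 7) := by
      apply Equiv.swap_apply_of_ne_of_ne
      · intro h
        apply hj
        ext
        have := congrArg Fin.val h
        simpa using this.symm
      · exact (Fin.succ_ne_zero j).symm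
    rw [pr_perm h x _ h1, Equiv.swap_inv]

/-- cells of the tiling -/
def DC (h : Fin 7 → ℤ) : Set (Fin 7 → ℝ) := {x | ∀ h' ∈ OL, pr h x ≤ pr h' x}

def h00 : Fin 7 → ℤ := ![1,0,0,0,0,0,0]

lemma measurable_pr (h : Fin 7 → ℤ) : Measurable (pr h) := by
  unfold pr
  fun_prop

lemma measurableSet_DC (h : Fin 7 → ℤ) : MeasurableSet (DC h) := by
  have : DC h = ⋂ h' ∈ OL.toFinset, {x | pr h x ≤ pr h' x} := by
    ext x; simp [DC]
  rw [this]
  exact Finset.measurableSet_biInter _ fun h' _ => measurableSet_le (measurable_pr _) (measurable_pr _)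

lemma preimage_DC (j : Fin 6) (h : Fin 7 → ℤ) : gg j ⁻¹' (DC h) = DC (GG j h) := by
  ext x
  simp only [DC, mem_preimage, Set.mem_ofPred_eq, pr_gg]
  constructor
  · intro H h' hh'
    have := H (GG j h') (GG_mem h' hh' j)
    rwa [GG_GG] at this
  · intro H h' hh'
    exact H (GG j h') (GG_mem h' hh' j)

/-- hypotheses on the measure and the set -/
structure Inv (μ : Measure (Fin 7 → ℝ)) (A : Set (Fin 7 → ℝ)) : Prop where
  meas : MeasurableSet A
  refl : MeasurePreserving r0 μ μ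
  reflA : r0 ⁻¹' A = A
  perm : ∀ τ : Equiv.Perm (Fin 7), τ 0 = 0 → MeasurePreserving (fun x i => x (τ i)) μ μ
  permA : ∀ τ : Equiv.Perm (Fin 7), τ 0 = 0 → (fun (x : Fin 7 → ℝ) i => x (τ i)) ⁻¹' A = A
  null : ∀ v : Fin 7 → ℝ, v ≠ 0 → μ {x | ∑ i, v i * x i = 0} = 0

lemma swap_zero {j : Fin 6} (hj : j ≠ 0) : (Equiv.swap j.castSucc j.succ) 0 = (0 : Fin 7) := by
  apply Equiv.swap_apply_of_ne_of_ne
  · intro h
    apply hj
    ext
    have := congrArg Fin.val h
    simpa using this.symm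
  · exact (Fin.succ_ne_zero j).symm

lemma gg_mp {μ : Measure (Fin 7 → ℝ)} {A : Set (Fin 7 → ℝ)} (H : Inv μ A) (j : Fin 6) :
    MeasurePreserving (gg j) μ μ := by
  by_cases hj : j = 0
  · have : gg j = r0 := by funext x; simp [gg, hj]
    rw [this]; exact H.refl
  · have : gg j = fun x i => x (Equiv.swap j.castSucc j.succ i) := by funext x; simp [gg, hj]
    rw [this]; exact H.perm _ (swap_zero hj)

lemma gg_A {μ : Measure (Fin 7 → ℝ)} {A : Set (Fin 7 → ℝ)} (H : Inv μ A) (j : Fin 6) :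
    gg j ⁻¹' A = A := by
  by_cases hj : j = 0
  · have : gg j = r0 := by funext x; simp [gg, hj]
    rw [this]; exact H.reflA
  · have : gg j = fun x i => x (Equiv.swap j.castSucc j.succ i) := by funext x; simp [gg, hj]
    rw [this]; exact H.permA _ (swap_zero hj)

lemma cell_step {μ : Measure (Fin 7 → ℝ)} {A : Set (Fin 7 → ℝ)} (H : Inv μ A) (j : Fin 6)
    (h : Fin 7 → ℤ) : μ (A ∩ DC (GG j h)) = μ (A ∩ DC h) := by
  rw [← (gg_mp H j).measure_preimage (H.meas.inter (measurableSet_DC h)).nullMeasurableSet,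
    preimage_inter, gg_A H j, preimage_DC]

lemma cell_eq {μ : Measure (Fin 7 → ℝ)} {A : Set (Fin 7 → ℝ)} (H : Inv μ A) :
    ∀ h ∈ OL, μ (A ∩ DC h) = μ (A ∩ DC h00) := by
  have key : ∀ n : ℕ, ∀ h ∈ OL, ell h ≤ n → μ (A ∩ DC h) = μ (A ∩ DC h00) := by
    intro n
    induction n with
    | zero =>
      intro h hh hl
      rcases ell_dec h hh with h1 | ⟨j, hj⟩
      · rw [h1]; rfl
      · have := ell_pos _ (GG_mem h hh j)
        push_cast at hl
        omega
    | succ n ih =>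
      intro h hh hl
      rcases ell_dec h hh with h1 | ⟨j, hj⟩
      · rw [h1]; rfl
      · rw [← cell_step H j h]
        refine ih _ (GG_mem h hh j) ?_
        push_cast at hl
        omega
  intro h hh
  refine key (ell h).toNat h hh ?_
  exact Int.self_le_toNat _

lemma tile72 {μ : Measure (Fin 7 → ℝ)} {A : Set (Fin 7 → ℝ)} (H : Inv μ A) :
    μ A = 72 * μ (A ∩ DC h00) := by
  classical
  have hcov : A = ⋃ h ∈ O72, A ∩ DC h := by
    ext x
    simp only [mem_iUnion, mem_inter_iff, exists_prop]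
    constructor
    · intro hx
      obtain ⟨h, hh, hmin⟩ := Finset.exists_min_image O72 (fun h => pr h x)
        (by rw [← Finset.card_pos, card_O72]; norm_num)
      refine ⟨h, hh, hx, ?_⟩
      intro h' hh'
      exact hmin h' (by simpa [O72] using hh')
    · rintro ⟨h, _, hx, _⟩; exact hx
  have hdisj : (O72 : Set (Fin 7 → ℤ)).Pairwise (Function.onFun (AEDisjoint μ) fun h => A ∩ DC h) := by
    intro h hh h' hh' hne
    have hsub : (A ∩ DC h) ∩ (A ∩ DC h') ⊆ {x | ∑ i, (fun i : Fin 7 => if i = 0 then ((h 0 - h' 0 : ℤ) : ℝ)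
        else -((h i - h' i : ℤ) : ℝ)) i * x i = 0} := by
      rintro x ⟨⟨_, h1⟩, ⟨_, h2⟩⟩
      have a1 := h1 h' (by simpa [O72] using hh')
      have a2 := h2 h (by simpa [O72] using hh)
      have a3 : pr h x = pr h' x := le_antisymm a1 a2
      simp only [pr] at a3
      rw [Set.mem_ofPred_eq, Fin.sum_univ_succ]
      simp only [if_true, Fin.succ_ne_zero, if_false]
      have a4 : ∑ i : Fin 6, -((h i.succ - h' i.succ : ℤ) : ℝ) * x i.succ =
          -(∑ k : Fin 6, (h k.succ : ℝ) * x k.succ) + ∑ k : Fin 6, (h' k.succ : ℝ) * x k.succ := by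
        rw [← Finset.sum_neg_distrib, ← Finset.sum_add_distrib]
        refine Finset.sum_congr rfl fun i _ => ?_
        push_cast; ring
      rw [a4]
      push_cast
      linarith
    refine measure_mono_null hsub (H.null _ ?_)
    intro h0
    apply hne
    funext i
    have := congrFun h0 i
    simp only [Pi.zero_apply] at this
    split_ifs at this with hi
    · subst hi
      have : h 0 - h' 0 = 0 := by exact_mod_cast this
      omega
    · have : h i - h' i = 0 := by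
        have h5 : ((h i - h' i : ℤ) : ℝ) = 0 := by linarith
        exact_mod_cast h5
      omega
  conv_lhs => rw [hcov]
  rw [measure_biUnion_finset₀ hdisj
    (fun h _ => (H.meas.inter (measurableSet_DC h)).nullMeasurableSet)]
  rw [Finset.sum_congr rfl (fun h hh => cell_eq H h (by simpa [O72] using hh)), Finset.sum_const,
    card_O72, nsmul_eq_mul]
  norm_num

/-- permutations of the last six coordinates -/
def tauOf (σ : Equiv.Perm (Fin 6)) : Equiv.Perm (Fin 7) where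
  toFun := Fin.cases 0 (fun k => (σ k).succ)
  invFun := Fin.cases 0 (fun k => (σ⁻¹ k).succ)
  left_inv := by
    intro i
    refine Fin.cases ?_ (fun k => ?_) i <;> simp
  right_inv := by
    intro i
    refine Fin.cases ?_ (fun k => ?_) i <;> simp

lemma tauOf_zero (σ : Equiv.Perm (Fin 6)) : tauOf σ 0 = 0 := rfl

lemma tauOf_succ (σ : Equiv.Perm (Fin 6)) (k : Fin 6) : tauOf σ k.succ = (σ k).succ := rfl

/-- the sorted region -/
def SA : Set (Fin 7 → ℝ) := {x | StrictAnti fun k : Fin 6 => x k.succ}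

lemma measurableSet_SA : MeasurableSet SA := by
  have : SA = ⋂ i : Fin 6, ⋂ j : Fin 6, {x : Fin 7 → ℝ | i < j → x j.succ < x i.succ} := by
    ext f; simp [SA, StrictAnti]
  rw [this]
  refine MeasurableSet.iInter fun i => MeasurableSet.iInter fun j => ?_
  by_cases h : i < j
  · simp only [h, true_implies]
    exact measurableSet_lt (measurable_pi_apply _) (measurable_pi_apply _)
  · simp [h]

lemma tile720 {μ : Measure (Fin 7 → ℝ)} {A : Set (Fin 7 → ℝ)} (H : Inv μ A) (D : Set (Fin 7 → ℝ))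
    (hD : MeasurableSet D)
    (hDp : ∀ τ : Equiv.Perm (Fin 7), τ 0 = 0 → (fun (x : Fin 7 → ℝ) i => x (τ i)) ⁻¹' D = D) :
    μ (A ∩ D) = 720 * μ (A ∩ D ∩ SA) := by
  classical
  let P : Equiv.Perm (Fin 6) → (Fin 7 → ℝ) → (Fin 7 → ℝ) := fun σ x i => x (tauOf σ i)
  have hinj : ∀ᵐ x ∂μ, Function.Injective (fun k : Fin 6 => x k.succ) := by
    have h : ∀ i j : Fin 6, i ≠ j → ∀ᵐ x : Fin 7 → ℝ ∂μ, x i.succ ≠ x j.succ := by
      intro i j hij
      rw [ae_iff]
      have h1 := H.null (Pi.single i.succ 1 - Pi.single j.succ 1 : Fin 7 → ℝ) (by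
        intro h0
        have := congrFun h0 i.succ
        have hne : i.succ ≠ j.succ := fun h => hij (Fin.succ_injective _ h)
        simp [Pi.single_apply, hij] at this)
      refine measure_mono_null ?_ h1
      intro x hx
      simp only [ne_eq, not_not, Set.mem_ofPred_eq] at hx
      simp only [Set.mem_ofPred_eq, Pi.sub_apply, sub_mul, Finset.sum_sub_distrib, Pi.single_apply,
        ite_mul, one_mul, zero_mul, Finset.sum_ite_eq', Finset.mem_univ, if_true]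
      rw [hx, sub_self]
    have h2 : ∀ᵐ x : Fin 7 → ℝ ∂μ, ∀ i j : Fin 6, i ≠ j → x i.succ ≠ x j.succ := by
      rw [ae_all_iff]; intro i
      rw [ae_all_iff]; intro j
      by_cases hij : i = j
      · simp [hij]
      · filter_upwards [h i j hij] with f hf _ using hf
    filter_upwards [h2] with x hx
    intro i j hij
    by_contra hne
    exact hx i j hne hij
  have hmeasP : ∀ σ, Measurable (P σ) := fun σ => measurable_pi_lambda _ fun i => measurable_pi_apply _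
  have hmeas : ∀ σ, MeasurableSet ((A ∩ D) ∩ P σ ⁻¹' SA) := fun σ =>
    (H.meas.inter hD).inter ((hmeasP σ) measurableSet_SA)
  have hdisj : Pairwise (Function.onFun Disjoint fun σ => (A ∩ D) ∩ P σ ⁻¹' SA) := by
    intro σ τ hστ
    rw [Function.onFun, Set.disjoint_left]
    rintro x ⟨_, h1⟩ ⟨_, h2⟩
    apply hστ
    simp only [SA, mem_preimage, Set.mem_ofPred_eq, P, tauOf_succ] at h1 h2
    have h1' : StrictMono fun k : Fin 6 => -x (σ k).succ := fun a b hab => neg_lt_neg (h1 hab)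
    have h2' : StrictMono fun k : Fin 6 => -x (τ k).succ := fun a b hab => neg_lt_neg (h2 hab)
    have h3 := Tuple.unique_monotone (f := fun k : Fin 6 => -x k.succ) (σ := σ) (τ := τ)
      h1'.monotone h2'.monotone
    ext i
    have hi : Function.Injective (fun k : Fin 6 => -x k.succ) := by
      intro a b hab
      have hab' : -x (σ (σ⁻¹ a)).succ = -x (σ (σ⁻¹ b)).succ := by simpa using hab
      have := h1'.injective hab'
      simpa using this
    have h4 := congrFun h3 i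
    exact congrArg Fin.val (hi h4)
  have hcov : μ (A ∩ D) = μ (⋃ σ, (A ∩ D) ∩ P σ ⁻¹' SA) := by
    apply measure_congr
    rw [Filter.eventuallyEq_set]
    filter_upwards [hinj] with x hx
    rw [mem_iUnion]
    constructor
    · intro hxA
      refine ⟨Tuple.sort (fun k : Fin 6 => -x k.succ), hxA, ?_⟩
      have hm := Tuple.monotone_sort (fun k : Fin 6 => -x k.succ)
      have hs : StrictMono ((fun k : Fin 6 => -x k.succ) ∘ Tuple.sort (fun k : Fin 6 => -x k.succ)) := by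
        apply hm.strictMono_of_injective
        apply Function.Injective.comp _ (Equiv.injective _)
        intro a b hab
        apply hx
        simpa using hab
      intro a b hab
      have := hs hab
      simp only [Function.comp] at this
      simp only [P, tauOf_succ]
      linarith
    · rintro ⟨σ, hx, _⟩; exact hx
  have heq : ∀ σ, μ ((A ∩ D) ∩ P σ ⁻¹' SA) = μ (A ∩ D ∩ SA) := by
    intro σ
    have h1 := H.perm (tauOf σ) (tauOf_zero σ)
    rw [← h1.measure_preimage ((H.meas.inter hD).inter measurableSet_SA).nullMeasurableSet,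
      preimage_inter, preimage_inter, H.permA _ (tauOf_zero σ), hDp _ (tauOf_zero σ)]
  rw [hcov, measure_iUnion hdisj hmeas, tsum_fintype, Finset.sum_congr rfl (fun σ _ => heq σ),
    Finset.sum_const, Finset.card_univ, Fintype.card_perm, Fintype.card_fin, nsmul_eq_mul]
  norm_num [Nat.factorial]

end Pool.Agent.W438.Vol
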