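import Pool.Agent.W438.Vol.Tile

set_option autoImplicit false

open MeasureTheory ProbabilityTheory Set Filter Topology

namespace Pool.Agent.W438.Vol

/-- all triple sums are at most `x₀` -/
def TR : Set (Fin 7 → ℝ) :=
  {x | ∀ i j k : Fin 6, i < j → j < k → x i.succ + x j.succ + x k.succ ≤ x 0}

set_option maxHeartbeats 4000000 in
lemma TR_sub (x : Fin 7 → ℝ) (hx : x ∈ TR) : x ∈ DC h00 := by
  have t := hx
  simp only [TR, Set.mem_ofPred_eq] at t
  have t012 := t 0 1 2 (by decide) (by decide)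
  have t013 := t 0 1 3 (by decide) (by decide)
  have t014 := t 0 1 4 (by decide) (by decide)
  have t015 := t 0 1 5 (by decide) (by decide)
  have t023 := t 0 2 3 (by decide) (by decide)
  have t024 := t 0 2 4 (by decide) (by decide)
  have t025 := t 0 2 5 (by decide) (by decide)
  have t034 := t 0 3 4 (by decide) (by decide)
  have t035 := t 0 3 5 (by decide) (by decide)
  have t045 := t 0 4 5 (by decide) (by decide)
  have t123 := t 1 2 3 (by decide) (by decide)
  have t124 := t 1 2 4 (by decide) (by decide)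
  have t125 := t 1 2 5 (by decide) (by decide)
  have t134 := t 1 3 4 (by decide) (by decide)
  have t135 := t 1 3 5 (by decide) (by decide)
  have t145 := t 1 4 5 (by decide) (by decide)
  have t234 := t 2 3 4 (by decide) (by decide)
  have t235 := t 2 3 5 (by decide) (by decide)
  have t245 := t 2 4 5 (by decide) (by decide)
  have t345 := t 3 4 5 (by decide) (by decide)
  clear t hx
  have e0 : (Fin.succ 0 : Fin 7) = 1 := rfl
  have e1 : (Fin.succ 1 : Fin 7) = 2 := rfl
  have e2 : (Fin.succ 2 : Fin 7) = 3 := rfl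
  have e3 : (Fin.succ 3 : Fin 7) = 4 := rfl
  have e4 : (Fin.succ 4 : Fin 7) = 5 := rfl
  have e5 : (Fin.succ 5 : Fin 7) = 6 := rfl
  simp only [e0, e1, e2, e3, e4, e5] at t012 t013 t014 t015 t023 t024 t025 t034 t035 t045 t123 t124 t125 t134 t135 t145 t234 t235 t245 t345
  intro h hh
  have hpr : ∀ h : Fin 7 → ℤ, pr h x = h 0 * x 0 - (h 1 * x 1 + h 2 * x 2 + h 3 * x 3 + h 4 * x 4 +
      h 5 * x 5 + h 6 * x 6) := by
    intro h
    simp [pr, Fin.sum_univ_succ]
    ring
  rw [hpr, hpr]
  generalize x 0 = a0 at *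
  generalize x 1 = a1 at *
  generalize x 2 = a2 at *
  generalize x 3 = a3 at *
  generalize x 4 = a4 at *
  generalize x 5 = a5 at *
  generalize x 6 = a6 at *
  clear hpr
  fin_cases hh <;> simp [h00] <;> linarith

def TR' : Set (Fin 7 → ℝ) :=
  {x | ∀ i j k : Fin 7, i ≠ 0 → j ≠ 0 → k ≠ 0 → i ≠ j → j ≠ k → i ≠ k → x i + x j + x k ≤ x 0}

lemma trip_mem : ∀ i j k : Fin 7, i ≠ 0 → j ≠ 0 → k ≠ 0 → i ≠ j → j ≠ k → i ≠ k →
    (fun c : Fin 7 => if c = 0 then (2 : ℤ) else if c = i ∨ c = j ∨ c = k then 1 else 0) ∈ OL := by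
  decide +kernel

lemma sub_TR' (x : Fin 7 → ℝ) (hx : x ∈ DC h00) : x ∈ TR' := by
  intro i j k hi hj hk hij hjk hik
  have h1 := hx _ (trip_mem i j k hi hj hk hij hjk hik)
  have h2 : pr h00 x = x 0 := by simp [pr, h00, Fin.sum_univ_succ]
  have h3 : ∑ c : Fin 6, (if c.succ = i ∨ c.succ = j ∨ c.succ = k then x c.succ else 0) =
      x i + x j + x k := by
    have h4 : ∑ c : Fin 6, (if c.succ = i ∨ c.succ = j ∨ c.succ = k then x c.succ else 0) =
        ∑ c : Fin 7, (if c = i ∨ c = j ∨ c = k then x c else 0) := by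
      rw [Fin.sum_univ_succ (fun c : Fin 7 => if c = i ∨ c = j ∨ c = k then x c else 0)]
      have : ¬ ((0 : Fin 7) = i ∨ (0 : Fin 7) = j ∨ (0 : Fin 7) = k) := by
        rintro (h | h | h)
        · exact hi h.symm
        · exact hj h.symm
        · exact hk h.symm
      rw [if_neg this, zero_add]
    rw [h4, ← Finset.sum_filter]
    have h5 : (Finset.univ.filter fun c : Fin 7 => c = i ∨ c = j ∨ c = k) = {i, j, k} := by
      ext c; simp
    rw [h5, Finset.sum_insert (by simp [hij, hik]), Finset.sum_insert (by simp [hjk]),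
      Finset.sum_singleton]
    ring
  rw [h2] at h1
  unfold pr at h1
  simp only [if_true, Fin.succ_ne_zero, if_false] at h1
  have h6 : ∑ c : Fin 6, (((if c.succ = i ∨ c.succ = j ∨ c.succ = k then (1 : ℤ) else 0) : ℤ) : ℝ) *
      x c.succ = x i + x j + x k := by
    rw [← h3]
    refine Finset.sum_congr rfl fun c _ => ?_
    split_ifs <;> simp
  rw [h6] at h1
  push_cast at h1
  linarith

lemma TR'_sub (x : Fin 7 → ℝ) (hx : x ∈ TR') : x ∈ TR := by
  intro i j k hij hjk
  refine hx i.succ j.succ k.succ (Fin.succ_ne_zero _) (Fin.succ_ne_zero _) (Fin.succ_ne_zero _) ?_ ?_ ?_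
  · intro h; exact hij.ne (Fin.succ_injective _ h)
  · intro h; exact hjk.ne (Fin.succ_injective _ h)
  · intro h; exact (hij.trans hjk).ne (Fin.succ_injective _ h)

lemma DC_eq : DC h00 = TR' := by
  ext x
  exact ⟨sub_TR' x, fun h => TR_sub x (TR'_sub x h)⟩

lemma DC_perm (τ : Equiv.Perm (Fin 7)) (hτ : τ 0 = 0) :
    (fun (x : Fin 7 → ℝ) i => x (τ i)) ⁻¹' (DC h00) = DC h00 := by
  have hne : ∀ i, i ≠ 0 → τ i ≠ 0 := by
    intro i hi h
    apply hi
    apply τ.injective
    rw [h, hτ]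
  have hne' : ∀ i, i ≠ 0 → τ⁻¹ i ≠ 0 := by
    intro i hi h
    apply hi
    have := congrArg τ h
    simpa [hτ] using this
  rw [DC_eq]
  ext x
  simp only [TR', mem_preimage, Set.mem_ofPred_eq, hτ]
  constructor
  · intro H i j k hi hj hk hij hjk hik
    have := H (τ⁻¹ i) (τ⁻¹ j) (τ⁻¹ k) (hne' i hi) (hne' j hj) (hne' k hk)
      (fun h => hij (τ⁻¹.injective h)) (fun h => hjk (τ⁻¹.injective h)) (fun h => hik (τ⁻¹.injective h))
    simpa using this
  · intro H i j k hi hj hk hij hjk hik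
    exact H (τ i) (τ j) (τ k) (hne i hi) (hne j hj) (hne k hk)
      (fun h => hij (τ.injective h)) (fun h => hjk (τ.injective h)) (fun h => hik (τ.injective h))

/-- the Weyl chamber -/
def CH : Set (Fin 7 → ℝ) := {x | x ∈ SA ∧ 0 ≤ x 0 - x 1 - x 2 - x 3}

lemma DC_SA : DC h00 ∩ SA = CH := by
  rw [DC_eq]
  ext x
  simp only [CH, mem_inter_iff, Set.mem_ofPred_eq]
  constructor
  · rintro ⟨h1, h2⟩
    refine ⟨h2, ?_⟩
    have := h1 1 2 3 (by decide) (by decide) (by decide) (by decide) (by decide) (by decide)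
    linarith
  · rintro ⟨h2, h1⟩
    refine ⟨?_, h2⟩
    apply sub_TR'
    apply TR_sub
    intro i j k hij hjk
    have a1 : x i.succ ≤ x 1 := h2.antitone (Fin.zero_le i)
    have a2 : x j.succ ≤ x 2 := by
      have : (1 : Fin 6) ≤ j := by
        rw [Fin.le_def]
        have : i.val < j.val := hij
        simp; omega
      exact h2.antitone this
    have a3 : x k.succ ≤ x 3 := by
      have : (2 : Fin 6) ≤ k := by
        rw [Fin.le_def]
        have : i.val < j.val := hij
        have : j.val < k.val := hjk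
        simp; omega
      exact h2.antitone this
    linarith

theorem tile {μ : Measure (Fin 7 → ℝ)} {A : Set (Fin 7 → ℝ)} (H : Inv μ A) :
    μ A = 51840 * μ (A ∩ CH) := by
  rw [tile72 H, tile720 H (DC h00) (measurableSet_DC h00) DC_perm, inter_assoc, DC_SA, ← mul_assoc]
  norm_num

end Pool.Agent.W438.Vol
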