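import Pool.Agent.W438.Vol.Ord

set_option autoImplicit false

open MeasureTheory ProbabilityTheory Set Filter Topology

namespace Pool.Agent.W438.Vol

/-- the seven walls of the Coxeter simplex: `x₀-y₁-y₂-y₃, y₁-y₂, …, y₅-y₆, y₆` -/
def AN : Matrix (Fin 7) (Fin 7) ℤ :=
  !![1,-1,-1,-1,0,0,0; 0,1,-1,0,0,0,0; 0,0,1,-1,0,0,0; 0,0,0,1,-1,0,0; 0,0,0,0,1,-1,0;
    0,0,0,0,0,1,-1; 0,0,0,0,0,0,1]

/-- sign pattern: `≥ 0` after `o`, `< 0` before `o`, nothing at `o` -/
def SP (o : Fin 7) : Set (Fin 7 → ℝ) := {v | ∀ i, (o < i → 0 ≤ v i) ∧ (i < o → v i < 0)}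

lemma measurableSet_SP (o : Fin 7) : MeasurableSet (SP o) := by
  have : SP o = ⋂ i, {v | (o < i → 0 ≤ v i) ∧ (i < o → v i < 0)} := by ext; simp [SP]
  rw [this]
  refine MeasurableSet.iInter fun i => ?_
  have e : {v : Fin 7 → ℝ | (o < i → 0 ≤ v i) ∧ (i < o → v i < 0)} =
      {v | o < i → 0 ≤ v i} ∩ {v | i < o → v i < 0} := by ext; simp
  rw [e]
  refine MeasurableSet.inter ?_ ?_
  · by_cases h : o < i
    · simp only [h, true_implies]
      exact measurableSet_le measurable_const (measurable_pi_apply _)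
    · simp [h]
  · by_cases h : i < o
    · simp only [h, true_implies]
      exact measurableSet_lt (measurable_pi_apply _) measurable_const
    · simp [h]

/-- scaling factors -/
noncomputable def DD (p : ℝ) (c : Fin 7) : ℝ := if c = 0 then 1 / Real.sqrt p else 1 / Real.sqrt (1 - p)

/-- the walls evaluated at a vector -/
noncomputable def XX (x : Fin 7 → ℝ) (i : Fin 7) : ℝ := ∑ c, (AN i c : ℝ) * x c

/-- probability of the pattern `o` -/
noncomputable def PP (o : Fin 7) (p : ℝ) : ENNReal :=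
  gam 7 {g | XX (fun c => DD p c * g c) ∈ SP o}

/-- the same probability in the local model -/
noncomputable def FF {n : ℕ} (b : Fin 7 → Fin n → ℝ) (o : Fin 7) (z : ℝ) : ENNReal :=
  gam n {f | (fun i => (AN i 0 : ℝ) * z + ∑ c, b i c * f c) ∈ SP o}

lemma transfer {n : ℕ} (b : Fin 7 → Fin n → ℝ) (o : Fin 7)
    (h : ∀ i k, i ≠ o → k ≠ o → ∑ c, b i c * b k c =
      ∑ c : Fin 6, (AN i c.succ : ℝ) * AN k c.succ - (AN i 0 : ℝ) * AN k 0)
    (p : ℝ) (hp0 : 0 < p) (hp1 : p < 1) :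
    PP o p = ∫⁻ z, FF b o (z / Real.sqrt p) ∂(gaussianReal 0 1) := by
  have hq : 0 < 1 - p := by linarith
  have hsp : 0 < Real.sqrt p := Real.sqrt_pos.2 hp0
  have hsq : 0 < Real.sqrt (1 - p) := Real.sqrt_pos.2 hq
  have hsp2 : Real.sqrt p ^ 2 = p := Real.sq_sqrt hp0.le
  have hsq2 : Real.sqrt (1 - p) ^ 2 = 1 - p := Real.sq_sqrt hq.le
  let A : Matrix (Fin 7) (Fin 7) ℝ := fun i c => if i = o then 0 else (AN i c : ℝ) * DD p c
  let B : Matrix (Fin 7) (Fin (n + 1)) ℝ := fun i c => if i = o then 0 else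
    (1 / Real.sqrt (1 - p)) * (Fin.cons ((AN i 0 : ℝ) / Real.sqrt p) (b i) : Fin (n + 1) → ℝ) c
  have hAB : ∀ i k, ∑ c, A i c * A k c = ∑ c, B i c * B k c := by
    intro i k
    by_cases hi : i = o
    · simp [A, B, hi]
    by_cases hk : k = o
    · simp [A, B, hk]
    have e1 : ∑ c, A i c * A k c = (AN i 0 : ℝ) * AN k 0 / p +
        (∑ c : Fin 6, (AN i c.succ : ℝ) * AN k c.succ) / (1 - p) := by
      rw [Fin.sum_univ_succ]
      simp only [A, hi, hk, if_false, DD, if_true, Fin.succ_ne_zero]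
      rw [Finset.sum_div]
      congr 1
      · rw [show (AN i 0 : ℝ) * (1 / Real.sqrt p) * ((AN k 0 : ℝ) * (1 / Real.sqrt p)) =
          (AN i 0 : ℝ) * AN k 0 / (Real.sqrt p ^ 2) by ring, hsp2]
      · refine Finset.sum_congr rfl fun c _ => ?_
        rw [show (AN i c.succ : ℝ) * (1 / Real.sqrt (1 - p)) * ((AN k c.succ : ℝ) *
          (1 / Real.sqrt (1 - p))) = (AN i c.succ : ℝ) * AN k c.succ / (Real.sqrt (1 - p) ^ 2) by ring,
          hsq2]
    have e2 : ∑ c, B i c * B k c = ((AN i 0 : ℝ) * AN k 0 / p + ∑ c, b i c * b k c) / (1 - p) := by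
      rw [Fin.sum_univ_succ]
      simp only [B, hi, hk, if_false, Fin.cons_zero, Fin.cons_succ]
      rw [add_div, Finset.sum_div]
      congr 1
      · rw [show 1 / Real.sqrt (1 - p) * ((AN i 0 : ℝ) / Real.sqrt p) * (1 / Real.sqrt (1 - p) *
          ((AN k 0 : ℝ) / Real.sqrt p)) = (AN i 0 : ℝ) * AN k 0 / (Real.sqrt p ^ 2) /
            (Real.sqrt (1 - p) ^ 2) by ring, hsp2, hsq2]
      · refine Finset.sum_congr rfl fun c _ => ?_
        rw [show 1 / Real.sqrt (1 - p) * b i c * (1 / Real.sqrt (1 - p) * b k c) =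
          b i c * b k c / (Real.sqrt (1 - p) ^ 2) by ring, hsq2]
    rw [e1, e2, h i k hi hk]
    field_simp
    ring
  have hlaw := gam_law A B hAB (measurableSet_SP o)
  have hA : {g : Fin 7 → ℝ | A.mulVec g ∈ SP o} = {g | XX (fun c => DD p c * g c) ∈ SP o} := by
    ext g
    simp only [Set.mem_ofPred_eq, SP, XX, Matrix.mulVec, dotProduct, A]
    refine forall_congr' fun i => ?_
    by_cases hi : i = o
    · simp [hi]
    · simp only [hi, if_false, mul_assoc]
  unfold PP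
  rw [← hA, hlaw]
  have hS : MeasurableSet {g : Fin (n + 1) → ℝ | B.mulVec g ∈ SP o} := by
    apply (measurableSet_SP o).preimage
    apply Continuous.measurable
    fun_prop
  rw [gam_succ hS]
  refine lintegral_congr fun z => ?_
  unfold FF
  congr 1
  ext f
  simp only [Set.mem_ofPred_eq, SP, Matrix.mulVec, dotProduct, B]
  refine forall_congr' fun i => ?_
  by_cases hi : i = o
  · simp [hi]
  · have e3 : ∑ c, (if i = o then 0 else (1 / Real.sqrt (1 - p)) *
        (Fin.cons ((AN i 0 : ℝ) / Real.sqrt p) (b i) : Fin (n + 1) → ℝ) c) *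
          (Fin.cons z f : Fin (n + 1) → ℝ) c =
        (1 / Real.sqrt (1 - p)) * ((AN i 0 : ℝ) * (z / Real.sqrt p) + ∑ c, b i c * f c) := by
      rw [Fin.sum_univ_succ]
      simp only [hi, if_false, Fin.cons_zero, Fin.cons_succ]
      rw [mul_add, Finset.mul_sum]
      congr 1
      · ring
      · exact Finset.sum_congr rfl fun c _ => by ring
    rw [e3]
    have hpos : 0 < 1 / Real.sqrt (1 - p) := by positivity
    rw [mul_nonneg_iff_of_pos_left hpos, mul_neg_iff]
    have : (0 < 1 / Real.sqrt (1 - p) ∧ (AN i 0 : ℝ) * (z / Real.sqrt p) + ∑ c, b i c * f c < 0 ∨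
      1 / Real.sqrt (1 - p) < 0 ∧ 0 < (AN i 0 : ℝ) * (z / Real.sqrt p) + ∑ c, b i c * f c) ↔
      (AN i 0 : ℝ) * (z / Real.sqrt p) + ∑ c, b i c * f c < 0 := by
      constructor
      · rintro (⟨_, h⟩ | ⟨h, _⟩)
        · exact h
        · linarith
      · intro h; exact Or.inl ⟨hpos, h⟩
    rw [this]

end Pool.Agent.W438.Vol
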